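import Mathlib

/-!
# Stable marriage with ties and incomplete lists: definitions
-/

set_option autoImplicit false

namespace Pool.Agent.W_MP_7af251_lc

/-- An instance of the stable marriage problem with ties and incomplete lists.  The men are
`0, …, men.length - 1` and the women are `0, …, women.length - 1`.  The preference list of an
agent is a list of tie classes, most preferred class first, each class being a list of agents of
the opposite sex; whoever occurs in no class is unacceptable. -/
structure Inst where
  men : List (List (List ℕ))
  women : List (List (List ℕ))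

/-- The preference list of man `m`. -/
def Inst.manList (I : Inst) (m : ℕ) : List (List ℕ) := (I.men[m]?).getD []

/-- The preference list of woman `w`. -/
def Inst.womanList (I : Inst) (w : ℕ) : List (List ℕ) := (I.women[w]?).getD []

/-- The position of the first tie class containing `a`.  Smaller means more preferred. -/
def rank (l : List (List ℕ)) (a : ℕ) : ℕ := l.findIdx (fun c => decide (a ∈ c))

/-- Every preference list consists of nonempty tie classes, contains nobody twice and contains
only agents of the opposite sex that exist. -/
def Inst.WellFormed (I : Inst) : Prop :=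
  (∀ l ∈ I.men, (∀ c ∈ l, c ≠ []) ∧ l.flatten.Nodup ∧ ∀ w ∈ l.flatten, w < I.women.length) ∧
  (∀ l ∈ I.women, (∀ c ∈ l, c ≠ []) ∧ l.flatten.Nodup ∧ ∀ m ∈ l.flatten, m < I.men.length)

/-- No man's list contains a tie. -/
def Inst.MenStrict (I : Inst) : Prop := ∀ l ∈ I.men, ∀ c ∈ l, c.length = 1

/-- Each of `m` and `w` finds the other acceptable. -/
def Inst.Acceptable (I : Inst) (m w : ℕ) : Prop :=
  w ∈ (I.manList m).flatten ∧ m ∈ (I.womanList w).flatten

/-- `M` is a matching: a set of acceptable pairs in which every agent appears at most once. -/
structure Inst.IsMatching (I : Inst) (M : Finset (ℕ × ℕ)) : Prop where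
  acceptable : ∀ m w, (m, w) ∈ M → I.Acceptable m w
  man : ∀ m w w', (m, w) ∈ M → (m, w') ∈ M → w = w'
  woman : ∀ m m' w, (m, w) ∈ M → (m', w) ∈ M → m = m'

/-- Man `m` is unmatched in `M` or strictly prefers `w` to his partner in `M`. -/
def Inst.ManWants (I : Inst) (M : Finset (ℕ × ℕ)) (m w : ℕ) : Prop :=
  ∀ w', (m, w') ∈ M → rank (I.manList m) w < rank (I.manList m) w'

/-- Woman `w` is unmatched in `M` or strictly prefers `m` to her partner in `M`. -/
def Inst.WomanWants (I : Inst) (M : Finset (ℕ × ℕ)) (w m : ℕ) : Prop :=
  ∀ m', (m', w) ∈ M → rank (I.womanList w) m < rank (I.womanList w) m'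

/-- `M` is a weakly stable matching. -/
def Inst.WeaklyStable (I : Inst) (M : Finset (ℕ × ℕ)) : Prop :=
  I.IsMatching M ∧
    ¬ ∃ m w, I.Acceptable m w ∧ (m, w) ∉ M ∧ I.ManWants M m w ∧ I.WomanWants M w m

/-- `M` is a man-optimal weakly stable matching: it is weakly stable and no man strictly prefers
his situation in some weakly stable matching `M'` (where he has a partner `w'`) to his situation
in `M`. -/
def Inst.ManOptimal (I : Inst) (M : Finset (ℕ × ℕ)) : Prop :=
  I.WeaklyStable M ∧
    ∀ M', I.WeaklyStable M' → ¬ ∃ m w', (m, w') ∈ M' ∧ I.ManWants M m w'

/-- `S` solves the search problem: on every well-formed instance it returns a man-optimal weakly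
stable matching, or reports (by `none`) that there is none. -/
def Solves (S : Inst → Option (Finset (ℕ × ℕ))) : Prop :=
  ∀ I : Inst, I.WellFormed →
    (∀ M, S I = some M → I.ManOptimal M) ∧ (S I = none → ¬ ∃ M, I.ManOptimal M)

/-- The code of a natural number (unary). -/
def codeNat : ℕ → List Bool
  | 0 => [false]
  | n + 1 => true :: false :: codeNat n

/-- The code of a list. -/
def codeList {α : Type} (code : α → List Bool) : List α → List Bool
  | [] => [false]
  | a :: l => true :: (code a ++ codeList code l)

/-- The code of an instance as a bit string. -/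
def Inst.code (I : Inst) : List Bool :=
  true :: (codeList (codeList (codeList codeNat)) I.men ++
    codeList (codeList (codeList codeNat)) I.women)

end Pool.Agent.W_MP_7af251_lc
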