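import Pool.Agent.W_MP_7af251_lc.Named
import Pool.Agent.W_MP_7af251_lc.Defs

/-!
# The reduction: agents as numbers
-/

set_option autoImplicit false

namespace Pool.Agent.W_MP_7af251_lc

open Pool.Agent.PolyTime

/-- Replace names by positions in a list, and drop empty tie classes. -/
def conv {α : Type} [DecidableEq α] (names : List α) (l : List (List α)) : List (List ℕ) :=
  (l.filter (fun c => !c.isEmpty)).map (fun c => c.map (fun a => List.idxOf a names))

/-- The instance constructed from a formula. -/
def inst (φ : CNF ℕ) : Inst where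
  men := (menN φ).map (fun m => conv (womenN φ) (pm φ m))
  women := (womenN φ).map (fun w => conv (menN φ) (pw φ w))

section conv

variable {α : Type} [DecidableEq α] {names : List α}

theorem idx_inj {a b : α} (ha : a ∈ names) : List.idxOf a names = List.idxOf b names ↔ a = b :=
  List.idxOf_inj ha

theorem mem_conv {l : List (List α)} {i : ℕ} :
    i ∈ (conv names l).flatten ↔ ∃ a ∈ l.flatten, List.idxOf a names = i := by
  unfold conv
  simp only [List.mem_flatten, List.mem_map, List.mem_filter]
  constructor
  · rintro ⟨_, ⟨c, ⟨hc, _⟩, rfl⟩, hi⟩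
    obtain ⟨a, ha, rfl⟩ := List.mem_map.1 hi
    exact ⟨a, ⟨c, hc, ha⟩, rfl⟩
  · rintro ⟨a, ⟨c, hc, ha⟩, rfl⟩
    refine ⟨_, ⟨c, ⟨hc, ?_⟩, rfl⟩, List.mem_map.2 ⟨a, ha, rfl⟩⟩
    cases c with
    | nil => simp at ha
    | cons _ _ => simp

theorem rank_map {l : List (List α)} {a : α} (hl : ∀ b ∈ l.flatten, b ∈ names) :
    rank (l.map (fun c => c.map (fun a => List.idxOf a names))) (List.idxOf a names) = rk l a := by
  unfold rank rk
  induction l with
  | nil => rfl
  | cons c l ih =>
    simp only [List.flatten_cons, List.mem_append] at hl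
    rw [List.map_cons, List.findIdx_cons, List.findIdx_cons, ih (fun b hb => hl b (Or.inr hb))]
    have : decide (List.idxOf a names ∈ c.map (fun a => List.idxOf a names)) = decide (a ∈ c) := by
      rw [decide_eq_decide, List.mem_map]
      constructor
      · rintro ⟨b, hb, h⟩
        rwa [← (idx_inj (hl b (Or.inl hb))).1 h]
      · intro h
        exact ⟨a, h, rfl⟩
    rw [this]

theorem rank_conv {l : List (List α)} {a b : α} (hl : ∀ b ∈ l.flatten, b ∈ names) :
    rank (conv names l) (List.idxOf a names) < rank (conv names l) (List.idxOf b names) ↔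
      rk l a < rk l b := by
  have h1 : ∀ b ∈ (l.filter (fun c => !c.isEmpty)).flatten, b ∈ names := by
    intro b hb
    rw [List.mem_flatten] at hb
    obtain ⟨c, hc, hb⟩ := hb
    exact hl b (List.mem_flatten.2 ⟨c, (List.mem_filter.1 hc).1, hb⟩)
  unfold conv
  rw [rank_map h1, rank_map h1, rk_filter]

theorem flatten_filter (l : List (List α)) :
    (l.filter (fun c => !c.isEmpty)).flatten = l.flatten := by
  induction l with
  | nil => rfl
  | cons c l ih =>
    cases c with
    | nil => rw [List.filter_cons_of_neg (by simp), ih]; simp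
    | cons a c => rw [List.filter_cons_of_pos (by simp), List.flatten_cons, List.flatten_cons, ih]

theorem conv_flatten (l : List (List α)) :
    (conv names l).flatten = l.flatten.map (fun a => List.idxOf a names) := by
  unfold conv
  rw [← List.map_flatten, flatten_filter]

theorem conv_nodup {l : List (List α)} (hl : ∀ b ∈ l.flatten, b ∈ names) (h : l.flatten.Nodup) :
    (conv names l).flatten.Nodup := by
  rw [conv_flatten]
  exact List.Nodup.map_on (fun a ha b _ hab => (idx_inj (hl a ha)).1 hab) h

theorem conv_lt {l : List (List α)} (hl : ∀ b ∈ l.flatten, b ∈ names) :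
    ∀ i ∈ (conv names l).flatten, i < names.length := by
  intro i hi
  obtain ⟨a, ha, rfl⟩ := mem_conv.1 hi
  exact List.idxOf_lt_length_iff.2 (hl a ha)

theorem conv_ne_nil {l : List (List α)} : ∀ c ∈ conv names l, c ≠ [] := by
  intro c hc
  unfold conv at hc
  obtain ⟨d, hd, rfl⟩ := List.mem_map.1 hc
  have := (List.mem_filter.1 hd).2
  cases d with
  | nil => simp at this
  | cons _ _ => simp

end conv

/-! ### The entries of the preference lists -/

variable {φ : CNF ℕ}

theorem pm_sub {m : Man} (hm : m ∈ menN φ) : ∀ w ∈ (pm φ m).flatten, w ∈ womenN φ := by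
  intro w hw
  cases m with
  | m0 =>
    have : w = .w0 := by simpa [pm] using hw
    simp [this]
  | s =>
    rcases mem_pm_s.1 hw with rfl | ⟨a, ha, rfl⟩
    · simp
    · simpa using ha
  | d w' =>
    simp only [mem_menN_d] at hm
    rcases mem_pm_d.1 hw with rfl | ⟨a, ha, rfl⟩
    · simpa using hm
    · simpa using ha
  | a a =>
    simp only [mem_menN_a] at hm
    rcases mem_pm_a.1 hw with rfl | h | rfl
    · simpa using hm
    · cases a with
      | y x b =>
        simp only [mem_jmen_y] at hm
        rcases mem_pj_y.1 h with rfl | rfl <;> simpa using hm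
      | f x =>
        simp only [mem_jmen_f] at hm
        rcases mem_pj_f.1 h with rfl | rfl <;> simpa using hm
      | e j =>
        simp only [mem_jmen_e] at hm
        obtain ⟨k, hk, rfl⟩ := mem_pj_e.1 h
        simp [hm, hk]
      | c j k =>
        simp only [mem_jmen_c] at hm
        rcases mem_pj_c.1 h with ⟨k', hk', rfl⟩ | rfl | rfl
        · simp [hm.1, hk']
        · simpa using lit_mem hm.1 hm.2
        · simpa using hm.1
    · simp

theorem occ_sub {x : ℕ} {s : Bool} : ∀ a ∈ occ φ x s, a ∈ jmen φ := by
  intro a ha
  obtain ⟨j, k, rfl, hj, hk, _⟩ := mem_occ.1 ha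
  simp [hj, hk]

theorem pw_sub {w : Woman} (hw : w ∈ womenN φ) : ∀ m ∈ (pw φ w).flatten, m ∈ menN φ := by
  intro m hm
  cases w with
  | w0 =>
    simp only [pw, List.flatten_cons, List.flatten_nil, List.append_nil, List.mem_append,
      List.mem_map, List.mem_cons, List.not_mem_nil, or_false] at hm
    rcases hm with ⟨a, ha, rfl⟩ | rfl | rfl
    · simpa using ha
    · simp
    · simp
  | t a =>
    simp only [mem_womenN_t] at hw
    simp only [pw, List.flatten_cons, List.flatten_nil, List.append_nil, List.mem_append,
      List.mem_map, List.mem_cons, List.not_mem_nil, or_false] at hm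
    rcases hm with (rfl | ⟨w, hw', rfl⟩) | rfl
    · simp
    · simpa using hw'
    · simpa using hw
  | w w =>
    simp only [mem_womenN_w] at hw
    simp only [pw, List.flatten_append, List.mem_append, List.flatten_cons, List.flatten_nil,
      List.append_nil, List.mem_cons, List.not_mem_nil, or_false] at hm
    rcases hm with hm | rfl
    swap
    · simpa using hw
    cases w with
    | g x =>
      simp only [mem_jwomen_g] at hw
      simp only [pk, List.flatten_cons, List.flatten_nil, List.append_nil, List.mem_cons,
        List.not_mem_nil, or_false] at hm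
      rcases hm with rfl | rfl <;> simpa using hw
    | v x s =>
      simp only [mem_jwomen_v] at hw
      simp only [pk, List.flatten_cons, List.flatten_nil, List.append_nil, List.mem_cons,
        List.mem_append, List.mem_map, List.not_mem_nil, or_false] at hm
      rcases hm with rfl | ⟨a, ha, rfl⟩ | rfl
      · simpa using hw
      · simpa using occ_sub a ha
      · simpa using hw
    | q j k =>
      simp only [mem_jwomen_q] at hw
      simp only [pk, List.flatten_cons, List.flatten_nil, List.append_nil, List.mem_cons,
        List.mem_map, List.mem_range] at hm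
      rcases hm with rfl | ⟨k', hk', rfl⟩
      · simpa using hw.1
      · simp [hw.1, hk']
    | p j =>
      simp only [mem_jwomen_p] at hw
      simp only [pk, List.flatten_cons, List.flatten_nil, List.append_nil,
        List.mem_map, List.mem_range] at hm
      obtain ⟨k', hk', rfl⟩ := hm
      simp [hw, hk']

/-! ### No repetitions -/

theorem map_range_nodup {α : Type} {n : ℕ} {f : ℕ → α} (hf : Function.Injective f) :
    ((List.range n).map f).Nodup := List.nodup_range.map hf

theorem jmen_nodup : (jmen φ).Nodup := by
  unfold jmen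
  rw [List.nodup_append]
  refine ⟨?_, ?_, ?_⟩
  · rw [List.nodup_flatMap]
    refine ⟨fun x _ => by simp, ?_⟩
    refine List.Pairwise.imp ?_ (List.nodup_dedup (φ.flatten.map Prod.fst))
    intro x x' hxx
    simp [Function.onFun, List.disjoint_left, hxx]
  · rw [List.nodup_flatMap]
    refine ⟨fun j _ => ?_, ?_⟩
    · rw [List.nodup_cons]
      exact ⟨by simp, map_range_nodup (fun a b h => by simpa using h)⟩
    · refine List.Pairwise.imp ?_ List.nodup_range
      intro j j' hjj
      simp only [Function.onFun, List.disjoint_left, List.mem_cons, List.mem_map, List.mem_range,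
        not_or, not_exists, not_and]
      rintro a (rfl | ⟨k, _, rfl⟩)
      · simp [hjj]
      · simp [Ne.symm hjj]
  · intro a ha b hb hab
    subst hab
    simp only [List.mem_flatMap, List.mem_cons, List.not_mem_nil, or_false] at ha
    simp only [List.mem_flatMap, List.mem_cons, List.mem_map, List.mem_range] at hb
    obtain ⟨x, _, ha⟩ := ha
    obtain ⟨j, _, hb⟩ := hb
    rcases ha with rfl | rfl | rfl <;> simp at hb

theorem jwomen_nodup : (jwomen φ).Nodup := by
  unfold jwomen
  rw [List.nodup_append]
  refine ⟨?_, ?_, ?_⟩
  · rw [List.nodup_flatMap]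
    refine ⟨fun x _ => by simp, ?_⟩
    refine List.Pairwise.imp ?_ (List.nodup_dedup (φ.flatten.map Prod.fst))
    intro x x' hxx
    simp [Function.onFun, List.disjoint_left, hxx]
  · rw [List.nodup_flatMap]
    refine ⟨fun j _ => ?_, ?_⟩
    · rw [List.nodup_cons]
      exact ⟨by simp, map_range_nodup (fun a b h => by simpa using h)⟩
    · refine List.Pairwise.imp ?_ List.nodup_range
      intro j j' hjj
      simp only [Function.onFun, List.disjoint_left, List.mem_cons, List.mem_map, List.mem_range,
        not_or, not_exists, not_and]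
      rintro a (rfl | ⟨k, _, rfl⟩)
      · simp [hjj]
      · simp [Ne.symm hjj]
  · intro a ha b hb hab
    subst hab
    simp only [List.mem_flatMap, List.mem_cons, List.not_mem_nil, or_false] at ha
    simp only [List.mem_flatMap, List.mem_cons, List.mem_map, List.mem_range] at hb
    obtain ⟨x, _, ha⟩ := ha
    obtain ⟨j, _, hb⟩ := hb
    rcases ha with rfl | rfl | rfl <;> simp at hb

theorem occ_nodup {x : ℕ} {s : Bool} : (occ φ x s).Nodup := by
  unfold occ
  rw [List.nodup_flatMap]
  refine ⟨fun j _ => ?_, ?_⟩
  · exact (List.nodup_range.filter _).map (fun a b h => by simpa using h)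
  · refine List.Pairwise.imp ?_ List.nodup_range
    intro j j' hjj
    simp only [Function.onFun, List.disjoint_left, List.mem_map, not_exists, not_and]
    rintro a ⟨k, _, rfl⟩ k' _
    simp [Ne.symm hjj]

theorem flatten_singletons {α β : Type} (l : List α) (f : α → β) :
    (l.map (fun a => [f a])).flatten = l.map f := by
  induction l with
  | nil => rfl
  | cons a l ih => simp [ih]

theorem pm_nodup (m : Man) : (pm φ m).flatten.Nodup := by
  cases m with
  | m0 => simp [pm]
  | s =>
    simp only [pm, List.flatten_cons, flatten_singletons, List.cons_append, List.nil_append,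
      List.nodup_cons]
    exact ⟨by simp, jmen_nodup.map (fun a b h => by simpa using h)⟩
  | d w =>
    simp only [pm, List.flatten_cons, flatten_singletons, List.cons_append, List.nil_append,
      List.nodup_cons]
    exact ⟨by simp, jmen_nodup.map (fun a b h => by simpa using h)⟩
  | a a =>
    simp only [pm, List.flatten_cons, List.flatten_append, List.flatten_nil, List.append_nil,
      List.cons_append, List.nil_append, List.nodup_cons, List.mem_append, List.mem_singleton,
      reduceCtorEq, or_false]
    refine ⟨t_notMem_pj, ?_⟩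
    rw [List.nodup_append]
    refine ⟨?_, by simp, ?_⟩
    · cases a with
      | y x b => simp [pj]
      | f x => simp [pj]
      | e j =>
        simp only [pj, flatten_singletons]
        exact map_range_nodup (fun a b h => by simpa using h)
      | c j k =>
        simp only [pj, List.flatten_append, flatten_singletons]
        rw [List.nodup_append]
        refine ⟨map_range_nodup (fun a b h => by simpa using h), by simp, ?_⟩
        intro a ha b hb hab
        subst hab
        obtain ⟨k', _, rfl⟩ := List.mem_map.1 ha
        simp at hb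
    · intro w hw w' hw' h
      subst h
      simp only [List.mem_singleton] at hw'
      subst hw'
      exact w0_notMem_pj hw

theorem pw_nodup (w : Woman) : (pw φ w).flatten.Nodup := by
  cases w with
  | w0 =>
    simp only [pw, List.flatten_cons, List.flatten_nil, List.append_nil]
    rw [List.nodup_append]
    refine ⟨jmen_nodup.map (fun a b h => by simpa using h), by simp, ?_⟩
    intro a ha b hb hab
    subst hab
    obtain ⟨k', _, rfl⟩ := List.mem_map.1 ha
    simp at hb
  | t a =>
    simp only [pw, List.flatten_cons, List.flatten_nil, List.append_nil]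
    rw [List.nodup_append]
    refine ⟨?_, by simp, ?_⟩
    · rw [List.nodup_cons]
      exact ⟨by simp, jwomen_nodup.map (fun a b h => by simpa using h)⟩
    · intro a ha b hb hab
      subst hab
      simp only [List.mem_singleton] at hb
      subst hb
      simp at ha
  | w w =>
    simp only [pw, List.flatten_append, List.flatten_cons, List.flatten_nil, List.append_nil]
    rw [List.nodup_append]
    refine ⟨?_, by simp, ?_⟩
    · cases w with
      | g x => simp [pk]
      | v x s =>
        simp only [pk, List.flatten_cons, List.flatten_nil, List.append_nil, List.cons_append,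
          List.nil_append, List.nodup_cons, List.mem_append, List.mem_map, List.mem_singleton,
          Man.a.injEq, exists_eq_right, reduceCtorEq, or_false]
        refine ⟨?_, ?_⟩
        · rw [mem_occ]
          rintro ⟨_, _, h, _⟩
          exact absurd h (by simp)
        · rw [List.nodup_append]
          refine ⟨occ_nodup.map (fun a b h => by simpa using h), by simp, ?_⟩
          intro a ha b hb hab
          subst hab
          obtain ⟨c, hc, rfl⟩ := List.mem_map.1 ha
          obtain ⟨_, _, rfl, _⟩ := mem_occ.1 hc
          simp at hb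
      | q j k =>
        simp only [pk, List.flatten_cons, List.flatten_nil, List.append_nil, List.nodup_cons]
        exact ⟨by simp, map_range_nodup (fun a b h => by simpa using h)⟩
      | p j =>
        simp only [pk, List.flatten_cons, List.flatten_nil, List.append_nil]
        exact map_range_nodup (fun a b h => by simpa using h)
    · intro m hm m' hm' h
      subst h
      simp only [List.mem_singleton] at hm'
      subst hm'
      exact d_notMem_pk _ _ hm

theorem inst_wellFormed : (inst φ).WellFormed := by
  refine ⟨?_, ?_⟩
  · intro l hl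
    obtain ⟨m, hm, rfl⟩ := List.mem_map.1 hl
    refine ⟨conv_ne_nil, conv_nodup (pm_sub hm) (pm_nodup m), ?_⟩
    intro w hw
    have := conv_lt (pm_sub hm) w hw
    simpa [inst] using this
  · intro l hl
    obtain ⟨w, hw, rfl⟩ := List.mem_map.1 hl
    refine ⟨conv_ne_nil, conv_nodup (pw_sub hw) (pw_nodup w), ?_⟩
    intro m hm
    have := conv_lt (pw_sub hw) m hm
    simpa [inst] using this

theorem pm_strict (m : Man) : ∀ c ∈ pm φ m, c.length = 1 := by
  intro c hc
  cases m with
  | m0 =>
    simp only [pm, List.mem_singleton] at hc
    simp [hc]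
  | s =>
    simp only [pm, List.mem_cons, List.mem_map] at hc
    rcases hc with rfl | ⟨a, _, rfl⟩ <;> rfl
  | d w =>
    simp only [pm, List.mem_cons, List.mem_map] at hc
    rcases hc with rfl | ⟨a, _, rfl⟩ <;> rfl
  | a a =>
    simp only [pm, List.mem_cons, List.mem_append, List.not_mem_nil, or_false] at hc
    rcases hc with rfl | hc | rfl
    · rfl
    · cases a with
      | y x b =>
        simp only [pj, List.mem_cons, List.not_mem_nil, or_false] at hc
        rcases hc with rfl | rfl <;> rfl
      | f x =>
        simp only [pj, List.mem_cons, List.not_mem_nil, or_false] at hc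
        rcases hc with rfl | rfl <;> rfl
      | e j =>
        simp only [pj, List.mem_map] at hc
        obtain ⟨_, _, rfl⟩ := hc
        rfl
      | c j k =>
        simp only [pj, List.mem_append, List.mem_map, List.mem_cons, List.not_mem_nil,
          or_false] at hc
        rcases hc with ⟨_, _, rfl⟩ | rfl | rfl <;> rfl
    · rfl

theorem inst_menStrict : (inst φ).MenStrict := by
  intro l hl c hc
  obtain ⟨m, hm, rfl⟩ := List.mem_map.1 hl
  unfold conv at hc
  obtain ⟨d, hd, rfl⟩ := List.mem_map.1 hc
  rw [List.length_map]
  exact pm_strict m d (List.mem_filter.1 hd).1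

/-! ### The identification of the two markets -/

/-- The market given by an instance. -/
def IS (I : Inst) : PS ℕ ℕ where
  acc := I.Acceptable
  mp m w w' := rank (I.manList m) w < rank (I.manList m) w'
  wp w m m' := rank (I.womanList w) m < rank (I.womanList w) m'

theorem manList_idx {m : Man} (hm : m ∈ menN φ) :
    (inst φ).manList (List.idxOf m (menN φ)) = conv (womenN φ) (pm φ m) := by
  have h := List.idxOf_lt_length_iff.2 hm
  simp only [Inst.manList, inst, List.getElem?_map, List.getElem?_eq_getElem h, Option.map_some,
    Option.getD_some, List.getElem_idxOf h]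

theorem womanList_idx {w : Woman} (hw : w ∈ womenN φ) :
    (inst φ).womanList (List.idxOf w (womenN φ)) = conv (menN φ) (pw φ w) := by
  have h := List.idxOf_lt_length_iff.2 hw
  simp only [Inst.womanList, inst, List.getElem?_map, List.getElem?_eq_getElem h, Option.map_some,
    Option.getD_some, List.getElem_idxOf h]

theorem getD_idx {α : Type} [DecidableEq α] {l : List α} {a d : α} (ha : a ∈ l) :
    (l[List.idxOf a l]?).getD d = a := by
  have h := List.idxOf_lt_length_iff.2 ha
  rw [List.getElem?_eq_getElem h, Option.getD_some, List.getElem_idxOf h]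

theorem acc_inv {i j : ℕ} (h : (inst φ).Acceptable i j) :
    ∃ m w, (NS φ).acc m w ∧ List.idxOf m (menN φ) = i ∧ List.idxOf w (womenN φ) = j := by
  obtain ⟨h1, h2⟩ := h
  have hi : i < (menN φ).length := by
    by_contra hcon
    simp only [Inst.manList, inst] at h1
    rw [List.getElem?_eq_none (by simpa using hcon)] at h1
    simp at h1
  have hj : j < (womenN φ).length := by
    by_contra hcon
    simp only [Inst.womanList, inst] at h2
    rw [List.getElem?_eq_none (by simpa using hcon)] at h2
    simp at h2
  have e1 : (inst φ).manList i = conv (womenN φ) (pm φ (menN φ)[i]) := by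
    simp [Inst.manList, inst, List.getElem?_eq_getElem hi]
  have e2 : (inst φ).womanList j = conv (menN φ) (pw φ (womenN φ)[j]) := by
    simp [Inst.womanList, inst, List.getElem?_eq_getElem hj]
  rw [e1, mem_conv] at h1
  rw [e2, mem_conv] at h2
  obtain ⟨w, hw, rfl⟩ := h1
  obtain ⟨m, hm, rfl⟩ := h2
  have hw' := pm_sub (List.getElem_mem hi) w hw
  have hm' := pw_sub (List.getElem_mem hj) m hm
  simp only [List.getElem_idxOf] at hw hm
  exact ⟨m, w, ⟨hm', hw', hw, hm⟩, rfl, rfl⟩

/-- The named market and the numbered market are the same. -/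
def iso (φ : CNF ℕ) : PS.Iso (NS φ) (IS (inst φ)) where
  f m := List.idxOf m (menN φ)
  g w := List.idxOf w (womenN φ)
  f' i := ((menN φ)[i]?).getD .m0
  g' j := ((womenN φ)[j]?).getD .w0
  acc := by
    rintro m w ⟨h1, h2, h3, h4⟩
    refine ⟨⟨?_, ?_⟩, getD_idx h1, getD_idx h2⟩
    · rw [manList_idx h1, mem_conv]
      exact ⟨w, h3, rfl⟩
    · rw [womanList_idx h2, mem_conv]
      exact ⟨m, h4, rfl⟩
  acc' := by
    intro i j h
    obtain ⟨m, w, h1, rfl, rfl⟩ := acc_inv h
    rw [getD_idx h1.1, getD_idx h1.2.1]
    exact ⟨h1, rfl, rfl⟩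
  mp := by
    rintro m w w' ⟨h1, h2, h3, h4⟩ _
    show _ ↔ rank _ _ < rank _ _
    rw [manList_idx h1, rank_conv (pm_sub h1)]
    rfl
  wp := by
    rintro w m m' ⟨h1, h2, h3, h4⟩ _
    show _ ↔ rank _ _ < rank _ _
    rw [womanList_idx h2, rank_conv (pw_sub h2)]
    rfl

/-! ### Matchings as relations and as finite sets -/

theorem stable_iff {I : Inst} {M : Finset (ℕ × ℕ)} :
    I.WeaklyStable M ↔ (IS I).Stable (fun m w => (m, w) ∈ M) := by
  constructor
  · rintro ⟨h1, h2⟩
    refine ⟨⟨h1.acceptable, h1.man, h1.woman⟩, fun m w ha hm hw => h2 ⟨m, w, ha, ?_, hm, hw⟩⟩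
    intro hmem
    have := hm w hmem
    change rank _ _ < rank _ _ at this
    omega
  · rintro ⟨⟨h1, h2, h3⟩, h4⟩
    refine ⟨⟨h1, h2, h3⟩, ?_⟩
    rintro ⟨m, w, ha, _, hm, hw⟩
    exact h4 m w ha hm hw

theorem acc_lt {I : Inst} {m w : ℕ} (h : I.Acceptable m w) :
    m < I.men.length ∧ w < I.women.length := by
  constructor
  · by_contra hcon
    have := h.1
    simp only [Inst.manList] at this
    rw [List.getElem?_eq_none (by simpa using hcon)] at this
    simp at this
  · by_contra hcon
    have := h.2
    simp only [Inst.womanList] at this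
    rw [List.getElem?_eq_none (by simpa using hcon)] at this
    simp at this

open Classical in
/-- The finite set of pairs of a matching given as a relation. -/
noncomputable def toFin (I : Inst) (μ : ℕ → ℕ → Prop) : Finset (ℕ × ℕ) :=
  (Finset.range I.men.length ×ˢ Finset.range I.women.length).filter (fun p => μ p.1 p.2)

theorem mem_toFin {I : Inst} {μ : ℕ → ℕ → Prop} (h : (IS I).Mat μ) {m w : ℕ} :
    (m, w) ∈ toFin I μ ↔ μ m w := by
  classical
  unfold toFin
  rw [Finset.mem_filter, Finset.mem_product, Finset.mem_range, Finset.mem_range]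
  exact ⟨fun h => h.2, fun h' => ⟨acc_lt (h.1 _ _ h'), h'⟩⟩

theorem opt_iff {I : Inst} : (∃ M, I.ManOptimal M) ↔ ∃ μ, (IS I).Opt μ := by
  constructor
  · rintro ⟨M, h1, h2⟩
    refine ⟨fun m w => (m, w) ∈ M, stable_iff.1 h1, ?_⟩
    intro μ' hμ' m w' hmw hall
    have e : (fun m w => (m, w) ∈ toFin I μ') = μ' := by
      funext m w
      exact propext (mem_toFin hμ'.1)
    refine h2 (toFin I μ') (stable_iff.2 (by rw [e]; exact hμ')) ⟨m, w', ?_, hall⟩
    exact (mem_toFin hμ'.1).2 hmw
  · rintro ⟨μ, h1, h2⟩
    have e : (fun m w => (m, w) ∈ toFin I μ) = μ := by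
      funext m w
      exact propext (mem_toFin h1.1)
    refine ⟨toFin I μ, stable_iff.2 (by rw [e]; exact h1), ?_⟩
    rintro M' hM' ⟨m, w', hmw, hwant⟩
    refine h2 _ (stable_iff.1 hM') m w' hmw ?_
    intro w hw
    exact hwant w ((mem_toFin h1.1).2 hw)

/-- The main property of the reduction. -/
theorem sat_iff (φ : CNF ℕ) : φ.Sat ↔ ¬ ∃ M, (inst φ).ManOptimal M := by
  rw [sat_iff_no_opt, (iso φ).exists_opt, opt_iff]

end Pool.Agent.W_MP_7af251_lc
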