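import Pool.Agent.PolyTimeCL.CookLevin
import Pool.Agent.W_MP_7af251_lc.Index

/-!
# The reduction is computable in polynomial time
-/

set_option autoImplicit false

namespace Pool.Agent.W_MP_7af251_lc

open Pool.Agent.PolyTime

/-! ### Codes of the agents -/

/-- The code of a man of the inner instance. -/
def JM.toS : JM → (ℕ × Bool) ⊕ (ℕ ⊕ (ℕ ⊕ (ℕ × ℕ)))
  | .y x b => .inl (x, b)
  | .f x => .inr (.inl x)
  | .e j => .inr (.inr (.inl j))
  | .c j k => .inr (.inr (.inr (j, k)))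

/-- The code of a woman of the inner instance. -/
def JW.toS : JW → ℕ ⊕ ((ℕ × Bool) ⊕ ((ℕ × ℕ) ⊕ ℕ))
  | .g x => .inl x
  | .v x s => .inr (.inl (x, s))
  | .q j k => .inr (.inr (.inl (j, k)))
  | .p j => .inr (.inr (.inr j))

instance : TEnc JM := ⟨fun a => TEnc.enc a.toS, fun a b h => by
  have h1 := TEnc.inj h
  cases a <;> cases b <;> simp_all [JM.toS]⟩

instance : TEnc JW := ⟨fun a => TEnc.enc a.toS, fun a b h => by
  have h1 := TEnc.inj h
  cases a <;> cases b <;> simp_all [JW.toS]⟩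

/-- The code of a man. -/
def Man.toS : Man → Bool ⊕ (JM ⊕ JW)
  | .m0 => .inl true
  | .s => .inl false
  | .a i => .inr (.inl i)
  | .d i => .inr (.inr i)

/-- The code of a woman. -/
def Woman.toS : Woman → Unit ⊕ (JM ⊕ JW)
  | .w0 => .inl ()
  | .t i => .inr (.inl i)
  | .w i => .inr (.inr i)

instance : TEnc Man := ⟨fun a => TEnc.enc a.toS, fun a b h => by
  have h1 := TEnc.inj h
  cases a <;> cases b <;> simp_all [Man.toS]⟩

instance : TEnc Woman := ⟨fun a => TEnc.enc a.toS, fun a b h => by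
  have h1 := TEnc.inj h
  cases a <;> cases b <;> simp_all [Woman.toS]⟩

section

variable {α β : Type*} [TEnc α] [TEnc β]

theorem pf_jmS {f : α → JM} (hf : PF f) : PF (fun x => (f x).toS) := hf
theorem pf_jwS {f : α → JW} (hf : PF f) : PF (fun x => (f x).toS) := hf
theorem pf_manS {f : α → Man} (hf : PF f) : PF (fun x => (f x).toS) := hf
theorem pf_womanS {f : α → Woman} (hf : PF f) : PF (fun x => (f x).toS) := hf

@[fun_prop]
theorem pf_y {f : α → ℕ} {g : α → Bool} (hf : PF f) (hg : PF g) : PF (fun x => JM.y (f x) (g x)) :=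
  show PF (fun x => (JM.y (f x) (g x)).toS) from PF.inl (hf.pair hg)
@[fun_prop]
theorem pf_f {f : α → ℕ} (hf : PF f) : PF (fun x => JM.f (f x)) :=
  show PF (fun x => (JM.f (f x)).toS) from PF.inr (PF.inl hf)
@[fun_prop]
theorem pf_e {f : α → ℕ} (hf : PF f) : PF (fun x => JM.e (f x)) :=
  show PF (fun x => (JM.e (f x)).toS) from PF.inr (PF.inr (PF.inl hf))
@[fun_prop]
theorem pf_c {f g : α → ℕ} (hf : PF f) (hg : PF g) : PF (fun x => JM.c (f x) (g x)) :=
  show PF (fun x => (JM.c (f x) (g x)).toS) from PF.inr (PF.inr (PF.inr (hf.pair hg)))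
@[fun_prop]
theorem pf_g {f : α → ℕ} (hf : PF f) : PF (fun x => JW.g (f x)) :=
  show PF (fun x => (JW.g (f x)).toS) from PF.inl hf
@[fun_prop]
theorem pf_v {f : α → ℕ} {g : α → Bool} (hf : PF f) (hg : PF g) : PF (fun x => JW.v (f x) (g x)) :=
  show PF (fun x => (JW.v (f x) (g x)).toS) from PF.inr (PF.inl (hf.pair hg))
@[fun_prop]
theorem pf_q {f g : α → ℕ} (hf : PF f) (hg : PF g) : PF (fun x => JW.q (f x) (g x)) :=
  show PF (fun x => (JW.q (f x) (g x)).toS) from PF.inr (PF.inr (PF.inl (hf.pair hg)))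
@[fun_prop]
theorem pf_p {f : α → ℕ} (hf : PF f) : PF (fun x => JW.p (f x)) :=
  show PF (fun x => (JW.p (f x)).toS) from PF.inr (PF.inr (PF.inr hf))
@[fun_prop]
theorem pf_ma {f : α → JM} (hf : PF f) : PF (fun x => Man.a (f x)) :=
  show PF (fun x => (Man.a (f x)).toS) from PF.inr (PF.inl hf)
@[fun_prop]
theorem pf_md {f : α → JW} (hf : PF f) : PF (fun x => Man.d (f x)) :=
  show PF (fun x => (Man.d (f x)).toS) from PF.inr (PF.inr hf)
@[fun_prop]
theorem pf_wt {f : α → JM} (hf : PF f) : PF (fun x => Woman.t (f x)) :=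
  show PF (fun x => (Woman.t (f x)).toS) from PF.inr (PF.inl hf)
@[fun_prop]
theorem pf_ww {f : α → JW} (hf : PF f) : PF (fun x => Woman.w (f x)) :=
  show PF (fun x => (Woman.w (f x)).toS) from PF.inr (PF.inr hf)

/-- Case distinction on a man of the inner instance. -/
theorem pf_jmCases {m : α → JM} {h : α → β} {fy : α → ℕ → Bool → β} {ff : α → ℕ → β}
    {fe : α → ℕ → β} {fc : α → ℕ → ℕ → β} (hm : PF m)
    (hy : PF (fun p : α × ℕ × Bool => fy p.1 p.2.1 p.2.2))
    (hf : PF (fun p : α × ℕ => ff p.1 p.2)) (he : PF (fun p : α × ℕ => fe p.1 p.2))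
    (hc : PF (fun p : α × ℕ × ℕ => fc p.1 p.2.1 p.2.2))
    (h1 : ∀ a x b, m a = .y x b → h a = fy a x b) (h2 : ∀ a x, m a = .f x → h a = ff a x)
    (h3 : ∀ a j, m a = .e j → h a = fe a j) (h4 : ∀ a j k, m a = .c j k → h a = fc a j k) :
    PF h := by
  let F : α → JM → β := fun a m => match m with
    | .y x b => fy a x b
    | .f x => ff a x
    | .e j => fe a j
    | .c j k => fc a j k
  let F3 : α × (ℕ ⊕ (ℕ × ℕ)) → β := fun p => Sum.elim (fun j => fe p.1 j) (fun q => fc p.1 q.1 q.2) p.2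
  let F2 : α × (ℕ ⊕ (ℕ ⊕ (ℕ × ℕ))) → β := fun p => Sum.elim (fun x => ff p.1 x) (fun q => F3 (p.1, q)) p.2
  have e3 : PF F3 := by
    refine PF.sumCases (s := fun p : α × (ℕ ⊕ (ℕ × ℕ)) => p.2) (f := fun p j => fe p.1 j)
      (g := fun p q => fc p.1 q.1 q.2) PF.snd ?_ ?_ ?_ ?_
    · exact he.comp (f := fun p : (α × (ℕ ⊕ (ℕ × ℕ))) × ℕ => (p.1.1, p.2)) (by fun_prop)
    · exact hc.comp (f := fun p : (α × (ℕ ⊕ (ℕ × ℕ))) × (ℕ × ℕ) => (p.1.1, p.2)) (by fun_prop)
    · rintro ⟨a, s⟩ b hb; simp only at hb; subst hb; rfl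
    · rintro ⟨a, s⟩ b hb; simp only at hb; subst hb; rfl
  have e2 : PF F2 := by
    refine PF.sumCases (s := fun p : α × (ℕ ⊕ (ℕ ⊕ (ℕ × ℕ))) => p.2) (f := fun p j => ff p.1 j)
      (g := fun p q => F3 (p.1, q)) PF.snd ?_ ?_ ?_ ?_
    · exact hf.comp (f := fun p : (α × (ℕ ⊕ (ℕ ⊕ (ℕ × ℕ)))) × ℕ => (p.1.1, p.2)) (by fun_prop)
    · exact e3.comp (f := fun p : (α × (ℕ ⊕ (ℕ ⊕ (ℕ × ℕ)))) × (ℕ ⊕ (ℕ × ℕ)) => (p.1.1, p.2))
        (by fun_prop)
    · rintro ⟨a, s⟩ b hb; simp only at hb; subst hb; rfl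
    · rintro ⟨a, s⟩ b hb; simp only at hb; subst hb; rfl
  refine PF.sumCases (s := fun a => (m a).toS) (f := fun a p => fy a p.1 p.2)
    (g := fun a q => F2 (a, q)) hm hy e2 ?_ ?_
  · intro a b hb
    cases hma : m a with
    | y x s => rw [hma] at hb; simp only [JM.toS, Sum.inl.injEq] at hb; subst hb; exact h1 _ _ _ hma
    | f x => rw [hma] at hb; simp [JM.toS] at hb
    | e x => rw [hma] at hb; simp [JM.toS] at hb
    | c j k => rw [hma] at hb; simp [JM.toS] at hb
  · intro a b hb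
    cases hma : m a with
    | y x s => rw [hma] at hb; simp [JM.toS] at hb
    | f x => rw [hma] at hb; simp only [JM.toS, Sum.inr.injEq] at hb; subst hb; exact h2 _ _ hma
    | e x => rw [hma] at hb; simp only [JM.toS, Sum.inr.injEq] at hb; subst hb; exact h3 _ _ hma
    | c j k => rw [hma] at hb; simp only [JM.toS, Sum.inr.injEq] at hb; subst hb; exact h4 _ _ _ hma

/-- Case distinction on a woman of the inner instance. -/
theorem pf_jwCases {m : α → JW} {h : α → β} {fg : α → ℕ → β} {fv : α → ℕ → Bool → β}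
    {fq : α → ℕ → ℕ → β} {fp : α → ℕ → β} (hm : PF m)
    (hg : PF (fun p : α × ℕ => fg p.1 p.2))
    (hv : PF (fun p : α × ℕ × Bool => fv p.1 p.2.1 p.2.2))
    (hq : PF (fun p : α × ℕ × ℕ => fq p.1 p.2.1 p.2.2)) (hp : PF (fun p : α × ℕ => fp p.1 p.2))
    (h1 : ∀ a x, m a = .g x → h a = fg a x) (h2 : ∀ a x b, m a = .v x b → h a = fv a x b)
    (h3 : ∀ a j k, m a = .q j k → h a = fq a j k) (h4 : ∀ a j, m a = .p j → h a = fp a j) :
    PF h := by
  let F3 : α × ((ℕ × ℕ) ⊕ ℕ) → β := fun p => Sum.elim (fun q => fq p.1 q.1 q.2) (fun j => fp p.1 j) p.2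
  let F2 : α × ((ℕ × Bool) ⊕ ((ℕ × ℕ) ⊕ ℕ)) → β :=
    fun p => Sum.elim (fun q => fv p.1 q.1 q.2) (fun q => F3 (p.1, q)) p.2
  have e3 : PF F3 := by
    refine PF.sumCases (s := fun p : α × ((ℕ × ℕ) ⊕ ℕ) => p.2)
      (f := fun p q => fq p.1 q.1 q.2) (g := fun p j => fp p.1 j) PF.snd ?_ ?_ ?_ ?_
    · exact hq.comp (f := fun p : (α × ((ℕ × ℕ) ⊕ ℕ)) × (ℕ × ℕ) => (p.1.1, p.2)) (by fun_prop)
    · exact hp.comp (f := fun p : (α × ((ℕ × ℕ) ⊕ ℕ)) × ℕ => (p.1.1, p.2)) (by fun_prop)
    · rintro ⟨a, s⟩ b hb; simp only at hb; subst hb; rfl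
    · rintro ⟨a, s⟩ b hb; simp only at hb; subst hb; rfl
  have e2 : PF F2 := by
    refine PF.sumCases (s := fun p : α × ((ℕ × Bool) ⊕ ((ℕ × ℕ) ⊕ ℕ)) => p.2)
      (f := fun p q => fv p.1 q.1 q.2) (g := fun p q => F3 (p.1, q)) PF.snd ?_ ?_ ?_ ?_
    · exact hv.comp (f := fun p : (α × ((ℕ × Bool) ⊕ ((ℕ × ℕ) ⊕ ℕ))) × (ℕ × Bool) => (p.1.1, p.2))
        (by fun_prop)
    · exact e3.comp (f := fun p : (α × ((ℕ × Bool) ⊕ ((ℕ × ℕ) ⊕ ℕ))) × ((ℕ × ℕ) ⊕ ℕ) =>
        (p.1.1, p.2)) (by fun_prop)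
    · rintro ⟨a, s⟩ b hb; simp only at hb; subst hb; rfl
    · rintro ⟨a, s⟩ b hb; simp only at hb; subst hb; rfl
  refine PF.sumCases (s := fun a => (m a).toS) (f := fun a p => fg a p)
    (g := fun a q => F2 (a, q)) hm hg e2 ?_ ?_
  · intro a b hb
    cases hma : m a with
    | g x => rw [hma] at hb; simp only [JW.toS, Sum.inl.injEq] at hb; subst hb; exact h1 _ _ hma
    | v x s => rw [hma] at hb; simp [JW.toS] at hb
    | q x => rw [hma] at hb; simp [JW.toS] at hb
    | p j => rw [hma] at hb; simp [JW.toS] at hb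
  · intro a b hb
    cases hma : m a with
    | g x => rw [hma] at hb; simp [JW.toS] at hb
    | v x s => rw [hma] at hb; simp only [JW.toS, Sum.inr.injEq] at hb; subst hb; exact h2 _ _ _ hma
    | q x k => rw [hma] at hb; simp only [JW.toS, Sum.inr.injEq] at hb; subst hb; exact h3 _ _ _ hma
    | p j => rw [hma] at hb; simp only [JW.toS, Sum.inr.injEq] at hb; subst hb; exact h4 _ _ hma

/-- Case distinction on a man. -/
theorem pf_manCases {m : α → Man} {h : α → β} {f0 f1 : α → β} {fa : α → JM → β}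
    {fd : α → JW → β} (hm : PF m)
    (h0 : PF f0) (h1 : PF f1)
    (ha : PF (fun p : α × JM => fa p.1 p.2)) (hd : PF (fun p : α × JW => fd p.1 p.2))
    (e1 : ∀ a, m a = .m0 → h a = f0 a) (e2 : ∀ a, m a = .s → h a = f1 a)
    (e3 : ∀ a j, m a = .a j → h a = fa a j) (e4 : ∀ a j, m a = .d j → h a = fd a j) :
    PF h := by
  let F2 : α × (JM ⊕ JW) → β :=
    fun p => Sum.elim (fun q => fa p.1 q) (fun q => fd p.1 q) p.2
  have e2' : PF F2 := by
    refine PF.sumCases (s := fun p : α × (JM ⊕ JW) => p.2)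
      (f := fun p q => fa p.1 q) (g := fun p q => fd p.1 q) PF.snd ?_ ?_ ?_ ?_
    · exact ha.comp (f := fun p : (α × (JM ⊕ JW)) × JM => (p.1.1, p.2))
        (by fun_prop)
    · exact hd.comp (f := fun p : (α × (JM ⊕ JW)) × JW => (p.1.1, p.2)) (by fun_prop)
    · rintro ⟨a, s⟩ b hb; simp only at hb; subst hb; rfl
    · rintro ⟨a, s⟩ b hb; simp only at hb; subst hb; rfl
  refine PF.sumCases (s := fun a => (m a).toS) (f := fun a (p : Bool) => bif p then f0 a else f1 a)
    (g := fun a q => F2 (a, q)) hm (PF.cond (by fun_prop) (h0.comp (by fun_prop))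
      (h1.comp (by fun_prop))) e2' ?_ ?_
  · intro a b hb
    cases hma : m a with
    | m0 => rw [hma] at hb; simp only [Man.toS, Sum.inl.injEq] at hb; subst hb; exact e1 _ hma
    | s => rw [hma] at hb; simp only [Man.toS, Sum.inl.injEq] at hb; subst hb; exact e2 _ hma
    | a x => rw [hma] at hb; simp [Man.toS] at hb
    | d j => rw [hma] at hb; simp [Man.toS] at hb
  · intro a b hb
    cases hma : m a with
    | m0 => rw [hma] at hb; simp [Man.toS] at hb
    | s => rw [hma] at hb; simp [Man.toS] at hb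
    | a x => rw [hma] at hb; simp only [Man.toS, Sum.inr.injEq] at hb; subst hb; exact e3 _ _ hma
    | d j => rw [hma] at hb; simp only [Man.toS, Sum.inr.injEq] at hb; subst hb; exact e4 _ _ hma

/-- Case distinction on a woman. -/
theorem pf_womanCases {m : α → Woman} {h : α → β} {f0 : α → β} {fa : α → JM → β}
    {fd : α → JW → β} (hm : PF m)
    (h0 : PF f0)
    (ha : PF (fun p : α × JM => fa p.1 p.2)) (hd : PF (fun p : α × JW => fd p.1 p.2))
    (e1 : ∀ a, m a = .w0 → h a = f0 a)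
    (e3 : ∀ a j, m a = .t j → h a = fa a j) (e4 : ∀ a j, m a = .w j → h a = fd a j) :
    PF h := by
  let F2 : α × (JM ⊕ JW) → β :=
    fun p => Sum.elim (fun q => fa p.1 q) (fun q => fd p.1 q) p.2
  have e2' : PF F2 := by
    refine PF.sumCases (s := fun p : α × (JM ⊕ JW) => p.2)
      (f := fun p q => fa p.1 q) (g := fun p q => fd p.1 q) PF.snd ?_ ?_ ?_ ?_
    · exact ha.comp (f := fun p : (α × (JM ⊕ JW)) × JM => (p.1.1, p.2))
        (by fun_prop)
    · exact hd.comp (f := fun p : (α × (JM ⊕ JW)) × JW => (p.1.1, p.2)) (by fun_prop)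
    · rintro ⟨a, s⟩ b hb; simp only at hb; subst hb; rfl
    · rintro ⟨a, s⟩ b hb; simp only at hb; subst hb; rfl
  refine PF.sumCases (s := fun a => (m a).toS) (f := fun a (p : Unit) => f0 a)
    (g := fun a q => F2 (a, q)) hm (h0.comp (by fun_prop)) e2' ?_ ?_
  · intro a b hb
    cases hma : m a with
    | w0 => exact e1 _ hma
    | t x => rw [hma] at hb; simp [Woman.toS] at hb
    | w j => rw [hma] at hb; simp [Woman.toS] at hb
  · intro a b hb
    cases hma : m a with
    | w0 => rw [hma] at hb; simp [Woman.toS] at hb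
    | t x => rw [hma] at hb; simp only [Woman.toS, Sum.inr.injEq] at hb; subst hb; exact e3 _ _ hma
    | w j => rw [hma] at hb; simp only [Woman.toS, Sum.inr.injEq] at hb; subst hb; exact e4 _ _ hma

/-! ### The parts of the construction -/

@[fun_prop]
theorem pf_vs {f : α → CNF ℕ} (hf : PF f) : PF (fun x => vs (f x)) := by
  unfold vs
  fun_prop

@[fun_prop]
theorem pf_cl {f : α → CNF ℕ} {j : α → ℕ} (hf : PF f) (hj : PF j) :
    PF (fun x => cl (f x) (j x)) := by
  unfold cl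
  fun_prop

@[fun_prop]
theorem pf_len {f : α → CNF ℕ} {j : α → ℕ} (hf : PF f) (hj : PF j) :
    PF (fun x => len (f x) (j x)) := by
  unfold len
  fun_prop

@[fun_prop]
theorem pf_lit {f : α → CNF ℕ} {j k : α → ℕ} (hf : PF f) (hj : PF j) (hk : PF k) :
    PF (fun x => lit (f x) (j x) (k x)) := by
  unfold lit
  fun_prop

@[fun_prop]
theorem pf_jmen {f : α → CNF ℕ} (hf : PF f) : PF (fun x => jmen (f x)) := by
  unfold jmen
  fun_prop

@[fun_prop]
theorem pf_jwomen {f : α → CNF ℕ} (hf : PF f) : PF (fun x => jwomen (f x)) := by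
  unfold jwomen
  fun_prop

@[fun_prop]
theorem pf_menN {f : α → CNF ℕ} (hf : PF f) : PF (fun x => menN (f x)) := by
  unfold menN
  fun_prop

@[fun_prop]
theorem pf_womenN {f : α → CNF ℕ} (hf : PF f) : PF (fun x => womenN (f x)) := by
  unfold womenN
  fun_prop

@[fun_prop]
theorem pf_occ {f : α → CNF ℕ} {x : α → ℕ} {s : α → Bool} (hf : PF f) (hx : PF x) (hs : PF s) :
    PF (fun a => occ (f a) (x a) (s a)) := by
  unfold occ
  have h1 : PF (fun p : ((α × ℕ) × ℕ) =>
      decide (lit (f p.1.1) p.1.2 p.2 = (x p.1.1, s p.1.1))) := PF.eq (by fun_prop) (by fun_prop)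
  refine PF.flatMap (PF.map (by fun_prop) (PF.filter h1 (by fun_prop))) (by fun_prop)

@[fun_prop]
theorem pf_pj {f : α → CNF ℕ} {m : α → JM} (hf : PF f) (hm : PF m) :
    PF (fun x => pj (f x) (m x)) := by
  refine pf_jmCases hm
    (fy := fun _ x b => [[.w (.g x)], [.w (.v x b)]])
    (ff := fun _ x => [[.w (.v x true)], [.w (.v x false)]])
    (fe := fun a j => (List.range (len (f a) j)).map (fun k => [Woman.w (.q j k)]))
    (fc := fun a j k => (List.range (len (f a) j)).map (fun k => [Woman.w (.q j k)]) ++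
      [[.w (.v (lit (f a) j k).1 (lit (f a) j k).2)], [.w (.p j)]])
    (by fun_prop) (by fun_prop) (by fun_prop) (by fun_prop) ?_ ?_ ?_ ?_
  · intro a x b h; rw [h]; rfl
  · intro a x h; rw [h]; rfl
  · intro a x h; rw [h]; rfl
  · intro a x b h; rw [h]; rfl

@[fun_prop]
theorem pf_pm {f : α → CNF ℕ} {m : α → Man} (hf : PF f) (hm : PF m) :
    PF (fun x => pm (f x) (m x)) := by
  refine pf_manCases hm
    (f0 := fun _ => [[.w0]])
    (f1 := fun x => [.w0] :: (jmen (f x)).map (fun a => [Woman.t a]))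
    (fa := fun x a => [.t a] :: (pj (f x) a ++ [[.w0]]))
    (fd := fun x w => [.w w] :: (jmen (f x)).map (fun a => [Woman.t a]))
    (by fun_prop) (by fun_prop) (by fun_prop) (by fun_prop) ?_ ?_ ?_ ?_
  · intro a h; rw [h]; rfl
  · intro a h; rw [h]; rfl
  · intro a x h; rw [h]; rfl
  · intro a x h; rw [h]; rfl

@[fun_prop]
theorem pf_pk {f : α → CNF ℕ} {m : α → JW} (hf : PF f) (hm : PF m) :
    PF (fun x => pk (f x) (m x)) := by
  refine pf_jwCases hm
    (fg := fun _ x => [[.a (.y x true), .a (.y x false)]])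
    (fv := fun a x s => [[.a (.y x s)], (occ (f a) x s).map Man.a, [.a (.f x)]])
    (fq := fun a j _ => [.a (.e j) :: (List.range (len (f a) j)).map (fun k => Man.a (.c j k))])
    (fp := fun a j => [(List.range (len (f a) j)).map (fun k => Man.a (.c j k))])
    (by fun_prop) (by fun_prop) (by fun_prop) (by fun_prop) ?_ ?_ ?_ ?_
  · intro a x h; rw [h]; rfl
  · intro a x b h; rw [h]; rfl
  · intro a x b h; rw [h]; rfl
  · intro a x h; rw [h]; rfl

@[fun_prop]
theorem pf_pw {f : α → CNF ℕ} {m : α → Woman} (hf : PF f) (hm : PF m) :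
    PF (fun x => pw (f x) (m x)) := by
  refine pf_womanCases hm
    (f0 := fun x => [(jmen (f x)).map Man.a, [.m0, .s]])
    (fa := fun x a => [.s :: (jwomen (f x)).map Man.d, [.a a]])
    (fd := fun x w => pk (f x) w ++ [[.d w]])
    (by fun_prop) (by fun_prop) (by fun_prop) ?_ ?_ ?_
  · intro a h; rw [h]; rfl
  · intro a x h; rw [h]; rfl
  · intro a x h; rw [h]; rfl

theorem pf_isEmpty {l : α → List β} (hl : PF l) : PF (fun x => (l x).isEmpty) :=
  PF.listCases (f := fun _ => true) (g := fun _ _ _ => false) hl (by fun_prop) (by fun_prop)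
    (fun a h => by simp [h]) (fun a b t h => by simp [h])

theorem pf_conv {γ : Type} [DecidableEq γ] [TEnc γ] {names : α → List γ} {l : α → List (List γ)}
    (hn : PF names) (hl : PF l) : PF (fun x => conv (names x) (l x)) := by
  unfold conv
  refine PF.map (f := fun x c => c.map (fun a => List.idxOf a (names x))) ?_
    (PF.filter (f := fun _ c => !c.isEmpty) ?_ hl)
  · exact PF.map (f := fun (x : α × List γ) a => List.idxOf a (names x.1)) (by fun_prop) (by fun_prop)
  · exact PF.not (pf_isEmpty (by fun_prop))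

/-- The reduction is polynomial-time computable. -/
theorem pf_inst {f : α → CNF ℕ} (hf : PF f) :
    PF (fun x => ((inst (f x)).men, (inst (f x)).women)) := by
  unfold inst
  refine PF.pair ?_ ?_
  · exact PF.map (f := fun x m => conv (womenN (f x)) (pm (f x) m))
      (pf_conv (by fun_prop) (by fun_prop)) (by fun_prop)
  · exact PF.map (f := fun x w => conv (menN (f x)) (pw (f x) w))
      (pf_conv (by fun_prop) (by fun_prop)) (by fun_prop)

end

/-! ### The code of an instance -/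

theorem codeNat_eq (n : ℕ) : codeNat n = (TEnc.enc n).enc := by
  induction n with
  | zero => rfl
  | succ n ih => rw [codeNat, ih]; rfl

theorem codeList_eq {α : Type} [TEnc α] (code : α → List Bool) (h : ∀ a, code a = (TEnc.enc a).enc)
    (l : List α) : codeList code l = (TEnc.enc l).enc := by
  induction l with
  | nil => rfl
  | cons a l ih => rw [codeList, ih, h]; rfl

theorem code_eq (I : Inst) : I.code = bits (I.men, I.women) := by
  have h := codeList_eq _ (codeList_eq _ (codeList_eq _ codeNat_eq))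
  unfold Inst.code
  rw [h, h]
  rfl

theorem code_injective : Function.Injective Inst.code := by
  intro I J h
  rw [code_eq, code_eq] at h
  have h1 := TEnc.inj (T.enc_injective h)
  cases I; cases J
  simp_all

end Pool.Agent.W_MP_7af251_lc
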