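import Mathlib
import Pool.Agent.PolyTimeCL.NP

/-!
# The reduction from satisfiability to man-optimal weakly stable matchings, with named agents
-/

set_option autoImplicit false

namespace Pool.Agent.W_MP_7af251_lc

open Pool.Agent.PolyTime

/-! ### Abstract preference systems -/

/-- A two-sided market: acceptability, and strict preference of men and of women. -/
structure PS (M W : Type) where
  acc : M → W → Prop
  mp : M → W → W → Prop
  wp : W → M → M → Prop

namespace PS

variable {M W M' W' : Type}

/-- Matchings, as relations. -/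
def Mat (P : PS M W) (μ : M → W → Prop) : Prop :=
  (∀ m w, μ m w → P.acc m w) ∧ (∀ m w w', μ m w → μ m w' → w = w') ∧
    (∀ m m' w, μ m w → μ m' w → m = m')

/-- Weak stability. -/
def Stable (P : PS M W) (μ : M → W → Prop) : Prop :=
  P.Mat μ ∧ ∀ m w, P.acc m w → (∀ w', μ m w' → P.mp m w w') → (∀ m', μ m' w → P.wp w m m') → False

/-- Man-optimality. -/
def Opt (P : PS M W) (μ : M → W → Prop) : Prop :=
  P.Stable μ ∧ ∀ μ', P.Stable μ' → ∀ m w', μ' m w' → ¬ ∀ w, μ m w → P.mp m w' w

/-- Data identifying two preference systems. -/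
structure Iso (P : PS M W) (Q : PS M' W') where
  f : M → M'
  g : W → W'
  f' : M' → M
  g' : W' → W
  acc : ∀ m w, P.acc m w → Q.acc (f m) (g w) ∧ f' (f m) = m ∧ g' (g w) = w
  acc' : ∀ m w, Q.acc m w → P.acc (f' m) (g' w) ∧ f (f' m) = m ∧ g (g' w) = w
  mp : ∀ m w w', P.acc m w → P.acc m w' → (P.mp m w w' ↔ Q.mp (f m) (g w) (g w'))
  wp : ∀ w m m', P.acc m w → P.acc m' w → (P.wp w m m' ↔ Q.wp (g w) (f m) (f m'))

/-- The inverse identification. -/
def Iso.symm {P : PS M W} {Q : PS M' W'} (I : Iso P Q) : Iso Q P where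
  f := I.f'
  g := I.g'
  f' := I.f
  g' := I.g
  acc := I.acc'
  acc' := I.acc
  mp := fun m w w' h h' => by
    obtain ⟨h1, h2, h3⟩ := I.acc' m w h
    obtain ⟨h1', _, h3'⟩ := I.acc' m w' h'
    rw [I.mp _ _ _ h1 h1', h2, h3, h3']
  wp := fun w m m' h h' => by
    obtain ⟨h1, h2, h3⟩ := I.acc' m w h
    obtain ⟨h1', h2', _⟩ := I.acc' m' w h'
    rw [I.wp _ _ _ h1 h1', h2, h2', h3]

theorem Iso.stable {P : PS M W} {Q : PS M' W'} (I : Iso P Q) {μ : M → W → Prop}
    (h : P.Stable μ) : Q.Stable (fun m w => Q.acc m w ∧ μ (I.f' m) (I.g' w)) := by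
  obtain ⟨⟨h1, h2, h3⟩, h4⟩ := h
  refine ⟨⟨fun m w h => h.1, ?_, ?_⟩, ?_⟩
  · rintro m w w' ⟨ha, hb⟩ ⟨ha', hb'⟩
    have h5 := h2 _ _ _ hb hb'
    rw [← (I.acc' m w ha).2.2, h5, (I.acc' m w' ha').2.2]
  · rintro m m' w ⟨ha, hb⟩ ⟨ha', hb'⟩
    have h5 := h3 _ _ _ hb hb'
    rw [← (I.acc' m w ha).2.1, h5, (I.acc' m' w ha').2.1]
  · intro m w ha hm hw
    obtain ⟨h5, h6, h7⟩ := I.acc' m w ha
    refine h4 _ _ h5 ?_ ?_
    · intro w' hμ
      have h8 := I.acc _ _ (h1 _ _ hμ)
      rw [I.mp _ _ _ h5 (h1 _ _ hμ), h6, h7]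
      apply hm
      refine ⟨?_, ?_⟩
      · rw [h6] at h8; exact h8.1
      · rw [h8.2.2]; exact hμ
    · intro m' hμ
      have h8 := I.acc _ _ (h1 _ _ hμ)
      rw [I.wp _ _ _ h5 (h1 _ _ hμ), h6, h7]
      apply hw
      refine ⟨?_, ?_⟩
      · rw [h7] at h8; exact h8.1
      · rw [h8.2.1]; exact hμ

theorem Iso.opt {P : PS M W} {Q : PS M' W'} (I : Iso P Q) {μ : M → W → Prop}
    (h : P.Opt μ) : Q.Opt (fun m w => Q.acc m w ∧ μ (I.f' m) (I.g' w)) := by
  refine ⟨I.stable h.1, ?_⟩
  intro μ' hμ' m w' hmw hall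
  have h1 := I.symm.stable hμ'
  have ha := hμ'.1.1 _ _ hmw
  obtain ⟨h5, h6, h7⟩ := I.acc' m w' ha
  refine h.2 _ h1 (I.f' m) (I.g' w') ⟨h5, ?_⟩ ?_
  · show μ' (I.f (I.f' m)) (I.g (I.g' w'))
    rw [h6, h7]; exact hmw
  · intro w hμ
    have h8 := I.acc _ _ (h.1.1.1 _ _ hμ)
    rw [I.mp _ _ _ h5 (h.1.1.1 _ _ hμ), h6, h7]
    apply hall
    refine ⟨?_, ?_⟩
    · rw [h6] at h8; exact h8.1
    · rw [h8.2.2]; exact hμ

theorem Iso.exists_opt {P : PS M W} {Q : PS M' W'} (I : Iso P Q) :
    (∃ μ, P.Opt μ) ↔ ∃ μ, Q.Opt μ :=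
  ⟨fun ⟨_, h⟩ => ⟨_, I.opt h⟩, fun ⟨_, h⟩ => ⟨_, I.symm.opt h⟩⟩

end PS

/-! ### Ranks -/

/-- The index of the first tie class containing `a` (the number of classes if there is none). -/
def rk {α : Type*} [DecidableEq α] (l : List (List α)) (a : α) : ℕ :=
  l.findIdx (fun c => decide (a ∈ c))

theorem rk_cons {α : Type*} [DecidableEq α] (c : List α) (l : List (List α)) (a : α) :
    rk (c :: l) a = if a ∈ c then 0 else rk l a + 1 := by
  unfold rk
  rw [List.findIdx_cons]
  by_cases h : a ∈ c <;> simp [h]

@[simp] theorem rk_nil {α : Type*} [DecidableEq α] (a : α) : rk ([] : List (List α)) a = 0 := rfl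

/-- Removing empty tie classes does not change the preferences. -/
theorem rk_filter {α : Type*} [DecidableEq α] (l : List (List α)) (a b : α) :
    rk (l.filter (fun c => !c.isEmpty)) a < rk (l.filter (fun c => !c.isEmpty)) b ↔
      rk l a < rk l b := by
  induction l with
  | nil => simp
  | cons c l ih =>
    cases c with
    | nil =>
      rw [List.filter_cons_of_neg (by simp)]
      simp only [rk_cons, List.not_mem_nil, if_false]
      omega
    | cons d c =>
      rw [List.filter_cons_of_pos (by simp)]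
      simp only [rk_cons]
      by_cases ha : a ∈ d :: c <;> by_cases hb : b ∈ d :: c <;> simp only [ha, hb, if_true, if_false]
        <;> omega

theorem rk_append_mem {α : Type*} [DecidableEq α] {l l' : List (List α)} {a : α}
    (h : a ∈ l.flatten) : rk (l ++ l') a = rk l a ∧ rk l a < l.length := by
  induction l with
  | nil => simp at h
  | cons c l ih =>
    simp only [List.flatten_cons, List.mem_append] at h
    simp only [List.cons_append, rk_cons, List.length_cons]
    by_cases hac : a ∈ c
    · simp [hac]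
    · have := ih (h.resolve_left hac)
      simp only [hac, if_false]
      omega

theorem rk_append_notMem {α : Type*} [DecidableEq α] {l l' : List (List α)} {a : α}
    (h : a ∉ l.flatten) : rk (l ++ l') a = l.length + rk l' a := by
  induction l with
  | nil => simp
  | cons c l ih =>
    simp only [List.flatten_cons, List.mem_append, not_or] at h
    simp only [List.cons_append, rk_cons, List.length_cons, h.1, if_false, ih h.2]
    omega

/-! ### The agents -/

/-- Men of the inner instance. -/
inductive JM : Type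
  | y (x : ℕ) (b : Bool) : JM
  | f (x : ℕ) : JM
  | e (j : ℕ) : JM
  | c (j k : ℕ) : JM
  deriving DecidableEq

/-- Women of the inner instance. -/
inductive JW : Type
  | g (x : ℕ) : JW
  | v (x : ℕ) (s : Bool) : JW
  | q (j k : ℕ) : JW
  | p (j : ℕ) : JW
  deriving DecidableEq

/-- Men. -/
inductive Man : Type
  | m0 : Man
  | s : Man
  | a (a : JM) : Man
  | d (w : JW) : Man
  deriving DecidableEq

/-- Women. -/
inductive Woman : Type
  | w0 : Woman
  | t (a : JM) : Woman
  | w (w : JW) : Woman
  deriving DecidableEq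

variable (φ : CNF ℕ)

/-- The variables of the formula. -/
def vs : List ℕ := (φ.flatten.map Prod.fst).dedup

/-- The clause with number `j`. -/
def cl (j : ℕ) : List (ℕ × Bool) := (φ[j]?).getD []

/-- The number of literals of clause `j`. -/
def len (j : ℕ) : ℕ := (cl φ j).length

/-- Literal number `k` of clause `j`. -/
def lit (j k : ℕ) : ℕ × Bool := ((cl φ j)[k]?).getD (0, true)

/-- All men of the inner instance. -/
def jmen : List JM :=
  ((vs φ).flatMap fun x => [JM.f x, JM.y x true, JM.y x false]) ++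
    (List.range φ.length).flatMap fun j => JM.e j :: (List.range (len φ j)).map (fun k => JM.c j k)

/-- All women of the inner instance. -/
def jwomen : List JW :=
  ((vs φ).flatMap fun x => [JW.g x, JW.v x true, JW.v x false]) ++
    (List.range φ.length).flatMap fun j => JW.p j :: (List.range (len φ j)).map (fun k => JW.q j k)

/-- All men. -/
def menN : List Man := Man.m0 :: Man.s :: ((jmen φ).map Man.a ++ (jwomen φ).map Man.d)

/-- All women. -/
def womenN : List Woman := Woman.w0 :: ((jmen φ).map Woman.t ++ (jwomen φ).map Woman.w)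

/-- Preference lists of the men of the inner instance (within the whole instance, without the
last entry). -/
def pj : JM → List (List Woman)
  | .y x b => [[.w (.g x)], [.w (.v x b)]]
  | .f x => [[.w (.v x true)], [.w (.v x false)]]
  | .e j => (List.range (len φ j)).map (fun k => [Woman.w (.q j k)])
  | .c j k => (List.range (len φ j)).map (fun k => [Woman.w (.q j k)]) ++
      [[.w (.v (lit φ j k).1 (lit φ j k).2)], [.w (.p j)]]

/-- Preference lists of the men. -/
def pm : Man → List (List Woman)
  | .m0 => [[.w0]]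
  | .s => [.w0] :: (jmen φ).map (fun a => [Woman.t a])
  | .a a => [.t a] :: (pj φ a ++ [[.w0]])
  | .d w => [.w w] :: (jmen φ).map (fun a => [Woman.t a])

/-- The clause men belonging to a literal. -/
def occ (x : ℕ) (s : Bool) : List JM :=
  (List.range φ.length).flatMap fun j =>
    ((List.range (len φ j)).filter (fun k => decide (lit φ j k = (x, s)))).map (fun k => JM.c j k)

/-- Preference lists of the women of the inner instance (without the last entry). -/
def pk : JW → List (List Man)
  | .g x => [[.a (.y x true), .a (.y x false)]]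
  | .v x s => [[.a (.y x s)], (occ φ x s).map Man.a, [.a (.f x)]]
  | .q j _ => [.a (.e j) :: (List.range (len φ j)).map (fun k => Man.a (.c j k))]
  | .p j => [(List.range (len φ j)).map (fun k => Man.a (.c j k))]

/-- Preference lists of the women. -/
def pw : Woman → List (List Man)
  | .w0 => [(jmen φ).map Man.a, [.m0, .s]]
  | .t a => [.s :: (jwomen φ).map Man.d, [.a a]]
  | .w w => pk φ w ++ [[.d w]]

/-- The market given by the named agents. -/
def NS : PS Man Woman where
  acc m w := m ∈ menN φ ∧ w ∈ womenN φ ∧ w ∈ (pm φ m).flatten ∧ m ∈ (pw φ w).flatten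
  mp m w w' := rk (pm φ m) w < rk (pm φ m) w'
  wp w m m' := rk (pw φ w) m < rk (pw φ w) m'

/-! ### Membership lemmas -/

variable {φ}

theorem lit_mem {j k : ℕ} (hj : j < φ.length) (hk : k < len φ j) : (lit φ j k).1 ∈ vs φ := by
  unfold vs
  rw [List.mem_dedup]
  have h1 : cl φ j = φ[j] := by simp [cl, List.getElem?_eq_getElem hj]
  have h2 : lit φ j k ∈ cl φ j := by
    have hk' : k < (cl φ j).length := hk
    simp only [lit, List.getElem?_eq_getElem hk', Option.getD_some]
    exact List.getElem_mem hk'
  rw [h1] at h2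
  exact List.mem_map.2 ⟨lit φ j k, List.mem_flatten.2 ⟨_, List.getElem_mem hj, h2⟩, rfl⟩

@[simp] theorem mem_jmen_y {x : ℕ} {b : Bool} : JM.y x b ∈ jmen φ ↔ x ∈ vs φ := by
  unfold jmen
  cases b <;> simp

@[simp] theorem mem_jmen_f {x : ℕ} : JM.f x ∈ jmen φ ↔ x ∈ vs φ := by
  unfold jmen
  simp

@[simp] theorem mem_jmen_e {j : ℕ} : JM.e j ∈ jmen φ ↔ j < φ.length := by
  unfold jmen
  simp

@[simp] theorem mem_jmen_c {j k : ℕ} : JM.c j k ∈ jmen φ ↔ j < φ.length ∧ k < len φ j := by
  unfold jmen
  simp

@[simp] theorem mem_jwomen_g {x : ℕ} : JW.g x ∈ jwomen φ ↔ x ∈ vs φ := by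
  unfold jwomen
  simp

@[simp] theorem mem_jwomen_v {x : ℕ} {b : Bool} : JW.v x b ∈ jwomen φ ↔ x ∈ vs φ := by
  unfold jwomen
  cases b <;> simp

@[simp] theorem mem_jwomen_p {j : ℕ} : JW.p j ∈ jwomen φ ↔ j < φ.length := by
  unfold jwomen
  simp

@[simp] theorem mem_jwomen_q {j k : ℕ} : JW.q j k ∈ jwomen φ ↔ j < φ.length ∧ k < len φ j := by
  unfold jwomen
  simp

@[simp] theorem mem_menN_m0 : Man.m0 ∈ menN φ := by simp [menN]
@[simp] theorem mem_menN_s : Man.s ∈ menN φ := by simp [menN]
@[simp] theorem mem_menN_a {a : JM} : Man.a a ∈ menN φ ↔ a ∈ jmen φ := by simp [menN]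
@[simp] theorem mem_menN_d {w : JW} : Man.d w ∈ menN φ ↔ w ∈ jwomen φ := by simp [menN]
@[simp] theorem mem_womenN_w0 : Woman.w0 ∈ womenN φ := by simp [womenN]
@[simp] theorem mem_womenN_t {a : JM} : Woman.t a ∈ womenN φ ↔ a ∈ jmen φ := by simp [womenN]
@[simp] theorem mem_womenN_w {w : JW} : Woman.w w ∈ womenN φ ↔ w ∈ jwomen φ := by simp [womenN]

theorem mem_occ {x : ℕ} {s : Bool} {a : JM} :
    a ∈ occ φ x s ↔ ∃ j k, a = .c j k ∧ j < φ.length ∧ k < len φ j ∧ lit φ j k = (x, s) := by
  unfold occ
  simp only [List.mem_flatMap, List.mem_range, List.mem_map, List.mem_filter, decide_eq_true_eq]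
  constructor
  · rintro ⟨j, hj, k, ⟨hk, hl⟩, rfl⟩
    exact ⟨j, k, rfl, hj, hk, hl⟩
  · rintro ⟨j, k, rfl, hj, hk, hl⟩
    exact ⟨j, hj, k, ⟨hk, hl⟩, rfl⟩

/-! ### Membership in preference lists, ranks -/

theorem mem_pm_s {w : Woman} :
    w ∈ (pm φ .s).flatten ↔ w = .w0 ∨ ∃ a ∈ jmen φ, w = .t a := by
  simp [pm, List.mem_flatten]

theorem mem_pm_d {w : JW} {w' : Woman} :
    w' ∈ (pm φ (.d w)).flatten ↔ w' = .w w ∨ ∃ a ∈ jmen φ, w' = .t a := by
  simp [pm, List.mem_flatten]

theorem mem_pm_a {a : JM} {w : Woman} :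
    w ∈ (pm φ (.a a)).flatten ↔ w = .t a ∨ w ∈ (pj φ a).flatten ∨ w = .w0 := by
  simp [pm]

theorem mem_pj_y {x : ℕ} {b : Bool} {w : Woman} :
    w ∈ (pj φ (.y x b)).flatten ↔ w = .w (.g x) ∨ w = .w (.v x b) := by
  simp [pj]

theorem mem_pj_f {x : ℕ} {w : Woman} :
    w ∈ (pj φ (.f x)).flatten ↔ w = .w (.v x true) ∨ w = .w (.v x false) := by
  simp [pj]

theorem mem_pj_e {j : ℕ} {w : Woman} :
    w ∈ (pj φ (.e j)).flatten ↔ ∃ k < len φ j, w = .w (.q j k) := by
  simp [pj, List.mem_flatten]

theorem mem_pj_c {j k : ℕ} {w : Woman} :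
    w ∈ (pj φ (.c j k)).flatten ↔ (∃ k' < len φ j, w = .w (.q j k')) ∨
      w = .w (.v (lit φ j k).1 (lit φ j k).2) ∨ w = .w (.p j) := by
  simp [pj, List.mem_flatten]

theorem t_notMem_pj {a a' : JM} : .t a' ∉ (pj φ a).flatten := by
  cases a
  · rw [mem_pj_y]; simp
  · rw [mem_pj_f]; simp
  · rw [mem_pj_e]; simp
  · rw [mem_pj_c]; simp

theorem w0_notMem_pj {a : JM} : .w0 ∉ (pj φ a).flatten := by
  cases a
  · rw [mem_pj_y]; simp
  · rw [mem_pj_f]; simp
  · rw [mem_pj_e]; simp
  · rw [mem_pj_c]; simp

theorem rk_pm_t {a : JM} : rk (pm φ (.a a)) (.t a) = 0 := by simp [pm, rk_cons]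

theorem rk_pm_w {a : JM} {w : JW} (h : .w w ∈ (pj φ a).flatten) :
    rk (pm φ (.a a)) (.w w) = rk (pj φ a) (.w w) + 1 ∧ rk (pj φ a) (.w w) < (pj φ a).length := by
  have h1 := rk_append_mem (l' := [[Woman.w0]]) h
  simp only [pm, rk_cons, List.mem_singleton, reduceCtorEq, if_false]
  omega

theorem rk_pm_w0 {a : JM} : rk (pm φ (.a a)) .w0 = (pj φ a).length + 1 := by
  have h1 := rk_append_notMem (l' := [[Woman.w0]]) (w0_notMem_pj (φ := φ) (a := a))
  simp only [pm, rk_cons, List.mem_singleton, reduceCtorEq, if_false, if_true] at h1 ⊢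
  omega

theorem rk_c_q {j k k' : ℕ} (hk : k' < len φ j) :
    rk (pj φ (.c j k)) (.w (.q j k')) < len φ j := by
  have h : Woman.w (.q j k') ∈ ((List.range (len φ j)).map (fun k => [Woman.w (.q j k)])).flatten := by
    simpa [List.mem_flatten] using hk
  have h1 := rk_append_mem (l' := [[Woman.w (.v (lit φ j k).1 (lit φ j k).2)], [.w (.p j)]]) h
  rw [List.length_map, List.length_range] at h1
  show rk (_ ++ _) _ < _
  omega

theorem rk_c_v {j k : ℕ} :
    rk (pj φ (.c j k)) (.w (.v (lit φ j k).1 (lit φ j k).2)) = len φ j := by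
  have h : Woman.w (.v (lit φ j k).1 (lit φ j k).2) ∉
      ((List.range (len φ j)).map (fun k => [Woman.w (.q j k)])).flatten := by
    simp [List.mem_flatten]
  have h1 := rk_append_notMem (l' := [[Woman.w (.v (lit φ j k).1 (lit φ j k).2)], [.w (.p j)]]) h
  rw [List.length_map, List.length_range, rk_cons, if_pos (by simp)] at h1
  show rk (_ ++ _) _ = _
  omega

theorem rk_c_p {j k : ℕ} :
    rk (pj φ (.c j k)) (.w (.p j)) = len φ j + 1 := by
  have h : Woman.w (.p j) ∉
      ((List.range (len φ j)).map (fun k => [Woman.w (.q j k)])).flatten := by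
    simp [List.mem_flatten]
  have h1 := rk_append_notMem (l' := [[Woman.w (.v (lit φ j k).1 (lit φ j k).2)], [.w (.p j)]]) h
  rw [List.length_map, List.length_range, rk_cons, if_neg (by simp), rk_cons,
    if_pos (by simp)] at h1
  show rk (_ ++ _) _ = _
  omega

theorem acc_a_w0 {a : JM} (ha : a ∈ jmen φ) : (NS φ).acc (.a a) .w0 := by
  refine ⟨by simpa using ha, by simp, ?_, ?_⟩
  · simp [pm]
  · simp [pw, ha]

theorem acc_s_t {a : JM} (ha : a ∈ jmen φ) : (NS φ).acc .s (.t a) := by
  refine ⟨by simp, by simpa using ha, ?_, ?_⟩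
  · exact mem_pm_s.2 (Or.inr ⟨a, ha, rfl⟩)
  · simp [pw]

theorem acc_d_t {w : JW} {a : JM} (hw : w ∈ jwomen φ) (ha : a ∈ jmen φ) :
    (NS φ).acc (.d w) (.t a) := by
  refine ⟨by simpa using hw, by simpa using ha, ?_, ?_⟩
  · exact mem_pm_d.2 (Or.inr ⟨a, ha, rfl⟩)
  · simp [pw, hw]

theorem rk_w0_a {a : JM} (ha : a ∈ jmen φ) : rk (pw φ .w0) (.a a) = 0 := by
  simp [pw, rk_cons, ha]

theorem rk_w0_m0 : rk (pw φ .w0) .m0 = 1 := by
  simp [pw, rk_cons]

theorem rk_w0_s : rk (pw φ .w0) .s = 1 := by
  simp [pw, rk_cons]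

theorem rk_t_s {a : JM} : rk (pw φ (.t a)) .s = 0 := by
  simp [pw, rk_cons]

theorem rk_t_d {a : JM} {w : JW} (hw : w ∈ jwomen φ) : rk (pw φ (.t a)) (.d w) = 0 := by
  simp [pw, rk_cons, hw]

theorem rk_t_a {a : JM} : rk (pw φ (.t a)) (.a a) = 1 := by
  simp [pw, rk_cons]

/-! ### From a stable matching in which `m0` is matched to a satisfying assignment -/

/-- No finite type `B` admits an injection of `Option B` into `B`. -/
theorem no_inj {B : Type*} [Finite B] (F : Option B → B) (hF : Function.Injective F) : False := by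
  haveI := Fintype.ofFinite B
  have := Fintype.card_le_of_injective F hF
  rw [Fintype.card_option] at this
  omega

theorem all_active {μ : Man → Woman → Prop} (h : (NS φ).Stable μ) (h0 : μ .m0 .w0) {a : JM}
    (ha : a ∈ jmen φ) : ∃ w, μ (.a a) (.w w) := by
  obtain ⟨⟨hacc, hm, hw⟩, hst⟩ := h
  have S1 : ∀ a ∈ jmen φ, μ (.a a) (.t a) ∨ ∃ w, μ (.a a) (.w w) := by
    intro a ha
    by_contra hcon
    push Not at hcon
    refine hst (.a a) .w0 (acc_a_w0 ha) ?_ ?_
    · intro w' hw'
      exfalso
      have h1 := (hacc _ _ hw').2.2.1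
      cases w' with
      | w0 => exact absurd (hw _ _ _ hw' h0) (by simp)
      | t a' =>
        have : a' = a := by
          rw [mem_pm_a] at h1
          rcases h1 with h1 | h1 | h1
          · simpa using h1
          · exact absurd h1 t_notMem_pj
          · exact absurd h1 (by simp)
        subst this
        exact hcon.1 hw'
      | w w => exact hcon.2 w hw'
    · intro m' hm'
      have : m' = .m0 := hw _ _ _ hm' h0
      subst this
      show rk _ _ < rk _ _
      rw [rk_w0_a ha, rk_w0_m0]
      omega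
  rcases S1 a ha with h1 | h1
  swap
  · exact h1
  exfalso
  -- the displaced men of the inner instance
  let B := {b : JM // b ∈ jmen φ ∧ ¬ μ (.a b) (.t b)}
  haveI : Finite B := Set.Finite.subset (List.finite_toSet (jmen φ)) (fun b hb => hb.1)
  have hB : ∀ b : B, ∃ w, μ (.a b.1) (.w w) := fun b => (S1 b.1 b.2.1).resolve_left b.2.2
  choose f hf using hB
  have hfw : ∀ b : B, f b ∈ jwomen φ := fun b => by
    have := (hacc _ _ (hf b)).2.1
    simpa using this
  let tok : Option B → Man := fun o => o.elim .s (fun b => .d (f b))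
  have tok_acc : ∀ o : Option B, (NS φ).acc (tok o) (.t a) := by
    intro o
    cases o with
    | none => exact acc_s_t ha
    | some b => exact acc_d_t (hfw b) ha
  have tok_rk : ∀ o : Option B, rk (pw φ (.t a)) (tok o) = 0 := by
    intro o
    cases o with
    | none => exact rk_t_s
    | some b => exact rk_t_d (hfw b)
  have tok_ne : ∀ (o : Option B) (b : JM), tok o ≠ .a b := by
    intro o b
    cases o <;> simp [tok]
  have tok_t : ∀ o : Option B, ∃ b : B, μ (tok o) (.t b.1) := by
    intro o
    have hmatched : ∃ w', μ (tok o) w' := by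
      by_contra hcon
      push Not at hcon
      refine hst (tok o) (.t a) (tok_acc o) (fun w' hw' => absurd hw' (hcon w')) ?_
      intro m' hm'
      have : m' = .a a := hw _ _ _ hm' h1
      subst this
      show rk _ _ < rk _ _
      rw [tok_rk, rk_t_a]
      omega
    obtain ⟨w', hw'⟩ := hmatched
    have h2 : ∃ b, w' = .t b := by
      cases o with
      | none =>
        rcases mem_pm_s.1 (hacc _ _ hw').2.2.1 with rfl | ⟨b, _, rfl⟩
        · exact absurd (hw _ _ _ hw' h0) (by simp [tok])
        · exact ⟨b, rfl⟩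
      | some c =>
        rcases mem_pm_d.1 (hacc _ _ hw').2.2.1 with rfl | ⟨b, _, rfl⟩
        · exact absurd (hw _ _ _ hw' (hf c)) (by simp [tok])
        · exact ⟨b, rfl⟩
    obtain ⟨b, rfl⟩ := h2
    refine ⟨⟨b, ?_, ?_⟩, hw'⟩
    · have := (hacc _ _ hw').2.1
      simpa using this
    · intro h3
      exact tok_ne o b (hw _ _ _ hw' h3)
  choose F hF using tok_t
  refine no_inj F ?_
  intro o o' hoo
  have h2 : tok o = tok o' := by
    have h3 := hF o
    rw [hoo] at h3
    exact hw _ _ _ h3 (hF o')
  cases o with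
  | none =>
    cases o' with
    | none => rfl
    | some b => simp [tok] at h2
  | some b =>
    cases o' with
    | none => simp [tok] at h2
    | some b' =>
      simp only [tok, Option.elim_some, Man.d.injEq] at h2
      have h3 := hf b
      rw [h2] at h3
      have h4 := hw _ _ _ h3 (hf b')
      simp only [Man.a.injEq] at h4
      rw [Subtype.ext h4]

theorem sat_of_stable {μ : Man → Woman → Prop} (h : (NS φ).Stable μ) (h0 : μ .m0 .w0) :
    φ.Sat := by
  classical
  have hact := fun {a : JM} (ha : a ∈ jmen φ) => all_active h h0 ha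
  obtain ⟨⟨hacc, hm, hw⟩, hst⟩ := h
  have hpj : ∀ {a : JM} {w : JW}, μ (.a a) (.w w) → .w w ∈ (pj φ a).flatten := by
    intro a w hw'
    have h1 := (hacc _ _ hw').2.2.1
    rw [mem_pm_a] at h1
    simpa using h1
  let α : ℕ → Bool := fun x => decide (μ (.a (.y x true)) (.w (.v x true)))
  -- the partners of the variable men
  have hy : ∀ x ∈ vs φ, ∀ b, μ (.a (.y x b)) (.w (.g x)) ∨ μ (.a (.y x b)) (.w (.v x b)) := by
    intro x hx b
    obtain ⟨w, hw'⟩ := hact (a := .y x b) (by simpa using hx)
    rcases mem_pj_y.1 (hpj hw') with h1 | h1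
    · exact Or.inl (h1 ▸ hw')
    · exact Or.inr (h1 ▸ hw')
  have hf : ∀ x ∈ vs φ, μ (.a (.f x)) (.w (.v x true)) ∨ μ (.a (.f x)) (.w (.v x false)) := by
    intro x hx
    obtain ⟨w, hw'⟩ := hact (a := .f x) (by simpa using hx)
    rcases mem_pj_f.1 (hpj hw') with h1 | h1
    · exact Or.inl (h1 ▸ hw')
    · exact Or.inr (h1 ▸ hw')
  have hfalse : ∀ x ∈ vs φ, ∀ s, α x ≠ s → μ (.a (.f x)) (.w (.v x s)) := by
    intro x hx s hs
    by_cases h1 : μ (.a (.y x true)) (.w (.v x true))
    · have h2 : α x = true := by simpa [α] using h1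
      have hs' : s = false := by
        cases s
        · rfl
        · exact absurd h2 hs
      subst hs'
      rcases hf x hx with h3 | h3
      · exact absurd (hw _ _ _ h1 h3) (by simp)
      · exact h3
    · have h2 : α x = false := by simpa [α] using h1
      have hs' : s = true := by
        cases s
        · exact absurd h2 hs
        · rfl
      subst hs'
      have h4 : μ (.a (.y x true)) (.w (.g x)) := (hy x hx true).resolve_right h1
      have h5 : μ (.a (.y x false)) (.w (.v x false)) := by
        rcases hy x hx false with h3 | h3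
        · exact absurd (hw _ _ _ h4 h3) (by simp)
        · exact h3
      rcases hf x hx with h3 | h3
      · exact h3
      · exact absurd (hw _ _ _ h5 h3) (by simp)
  refine ⟨α, fun c hc => ?_⟩
  obtain ⟨j, hj, rfl⟩ := List.getElem_of_mem hc
  by_contra hcon
  push Not at hcon
  have hcl : cl φ j = φ[j] := by simp [cl, List.getElem?_eq_getElem hj]
  have hlit : ∀ k < len φ j, μ (.a (.f (lit φ j k).1)) (.w (.v (lit φ j k).1 (lit φ j k).2)) := by
    intro k hk
    apply hfalse _ (lit_mem hj hk)
    apply hcon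
    rw [← hcl]
    have hk' : k < (cl φ j).length := hk
    simp only [lit, List.getElem?_eq_getElem hk', Option.getD_some]
    exact List.getElem_mem hk'
  -- the clause men are matched to the women `q j k`
  have hc : ∀ k : Fin (len φ j), ∃ k' : Fin (len φ j), μ (.a (.c j k)) (.w (.q j k')) := by
    intro k
    obtain ⟨w, hw'⟩ := hact (a := .c j k) (by simp [hj])
    rcases mem_pj_c.1 (hpj hw') with ⟨k', hk', h1⟩ | h1 | h1
    · exact ⟨⟨k', hk'⟩, h1 ▸ hw'⟩
    · rw [h1] at hw'
      exact absurd (hw _ _ _ hw' (hlit k k.2)) (by simp)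
    · exfalso
      rw [h1] at hw'
      have hv := lit_mem hj k.2
      have hvp : Woman.w (.v (lit φ j k).1 (lit φ j k).2) ∈ (pj φ (.c j k)).flatten :=
        mem_pj_c.2 (Or.inr (Or.inl rfl))
      have hpp : Woman.w (.p j) ∈ (pj φ (.c j k)).flatten := mem_pj_c.2 (Or.inr (Or.inr rfl))
      refine hst (.a (.c j k)) (.w (.v (lit φ j k).1 (lit φ j k).2)) ?_ ?_ ?_
      · refine ⟨by simp [hj], by simpa using hv, mem_pm_a.2 (Or.inr (Or.inl hvp)), ?_⟩
        simp only [pw, pk, List.cons_append, List.nil_append, List.flatten_cons,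
          List.flatten_nil, List.append_nil, List.mem_cons, List.mem_append, List.mem_map,
          Man.a.injEq, exists_eq_right, mem_occ]
        right
        left
        exact ⟨j, k, rfl, hj, k.2, rfl⟩
      · intro w' hw''
        have : w' = .w (.p j) := hm _ _ _ hw'' hw'
        subst this
        show rk _ _ < rk _ _
        rw [(rk_pm_w hvp).1, (rk_pm_w hpp).1, rk_c_v, rk_c_p]
        omega
      · intro m' hm'
        have : m' = .a (.f (lit φ j k).1) := hw _ _ _ hm' (hlit k k.2)
        subst this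
        show rk _ _ < rk _ _
        have h5 : JM.c j k ∈ occ φ (lit φ j k).1 (lit φ j k).2 := mem_occ.2 ⟨j, k, rfl, hj, k.2, rfl⟩
        have h6 : JM.f (lit φ j k).1 ∉ occ φ (lit φ j k).1 (lit φ j k).2 := by
          rw [mem_occ]
          rintro ⟨_, _, h, _⟩
          exact absurd h (by simp)
        simp [pw, pk, rk_cons, h5, h6]
  have he : ∃ k' : Fin (len φ j), μ (.a (.e j)) (.w (.q j k')) := by
    obtain ⟨w, hw'⟩ := hact (a := .e j) (by simp [hj])
    obtain ⟨k', hk', h1⟩ := mem_pj_e.1 (hpj hw')
    exact ⟨⟨k', hk'⟩, h1 ▸ hw'⟩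
  obtain ⟨ke, hke⟩ := he
  choose F hF using hc
  refine no_inj (fun o : Option (Fin (len φ j)) => o.elim ke F) ?_
  intro o o' hoo
  cases o with
  | none =>
    cases o' with
    | none => rfl
    | some k =>
      simp only [Option.elim_none, Option.elim_some] at hoo
      rw [hoo] at hke
      exact absurd (hw _ _ _ hke (hF k)) (by simp)
  | some k =>
    cases o' with
    | none =>
      simp only [Option.elim_none, Option.elim_some] at hoo
      rw [← hoo] at hke
      exact absurd (hw _ _ _ hke (hF k)) (by simp)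
    | some k' =>
      simp only [Option.elim_some] at hoo
      have h1 := hF k
      rw [hoo] at h1
      have h2 := hw _ _ _ h1 (hF k')
      simp only [Man.a.injEq, JM.c.injEq, true_and] at h2
      rw [Fin.ext h2]

/-! ### The stable matching without `m0` -/

/-- All men except `m0` have their first choice. -/
def μ0 (φ : CNF ℕ) : Man → Woman → Prop
  | .s, .w0 => True
  | .a a, .t a' => a = a' ∧ a ∈ jmen φ
  | .d w, .w w' => w = w' ∧ w ∈ jwomen φ
  | _, _ => False

theorem μ0_stable : (NS φ).Stable (μ0 φ) := by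
  refine ⟨⟨?_, ?_, ?_⟩, ?_⟩
  · intro m w h
    cases m <;> cases w <;> simp only [μ0] at h
    · refine ⟨by simp, by simp, ?_, ?_⟩
      · simp [pm]
      · simp [pw]
    · obtain ⟨rfl, h⟩ := h
      refine ⟨by simpa using h, by simpa using h, ?_, ?_⟩
      · simp [pm]
      · simp [pw]
    · obtain ⟨rfl, h⟩ := h
      refine ⟨by simpa using h, by simpa using h, ?_, ?_⟩
      · simp [pm]
      · simp [pw]
  · intro m w w' h h'
    cases m <;> cases w <;> cases w' <;> simp only [μ0] at h h'
    · rfl
    · rw [← h.1, ← h'.1]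
    · rw [← h.1, ← h'.1]
  · intro m m' w h h'
    cases m <;> cases m' <;> cases w <;> simp only [μ0] at h h'
    · rfl
    · rw [h.1, h'.1]
    · rw [h.1, h'.1]
  · intro m w hacc hm hw
    obtain ⟨h1, h2, h3, h4⟩ := hacc
    cases m with
    | m0 =>
      have h5 : w = .w0 := by simpa [pm] using h3
      subst h5
      have h6 := hw .s trivial
      change rk _ _ < rk _ _ at h6
      rw [rk_w0_m0, rk_w0_s] at h6
      omega
    | s =>
      have h6 := hm .w0 trivial
      change rk _ _ < rk _ _ at h6
      rw [show rk (pm φ .s) .w0 = 0 by simp [pm, rk_cons]] at h6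
      omega
    | a a =>
      have h6 := hm (.t a) ⟨rfl, by simpa using h1⟩
      change rk _ _ < rk _ _ at h6
      rw [show rk (pm φ (.a a)) (.t a) = 0 by simp [pm, rk_cons]] at h6
      omega
    | d w' =>
      have h6 := hm (.w w') ⟨rfl, by simpa using h1⟩
      change rk _ _ < rk _ _ at h6
      rw [show rk (pm φ (.d w')) (.w w') = 0 by simp [pm, rk_cons]] at h6
      omega

/-! ### From a satisfying assignment to a stable matching in which `m0` is matched -/

/-- The partner of a man of the inner instance. -/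
def prt (α : ℕ → Bool) (κ : ℕ → ℕ) : JM → JW
  | .y x b => if α x = b then .v x b else .g x
  | .f x => .v x (!α x)
  | .e j => .q j (κ j)
  | .c j k => if k = κ j then .p j else .q j k

/-- The man of the inner instance to whom a woman is matched. -/
def prt' (α : ℕ → Bool) (κ : ℕ → ℕ) : JW → JM
  | .g x => .y x (!α x)
  | .v x s => if α x = s then .y x s else .f x
  | .q j k => if k = κ j then .e j else .c j k
  | .p j => .c j (κ j)

theorem prt'_prt (α : ℕ → Bool) (κ : ℕ → ℕ) (a : JM) : prt' α κ (prt α κ a) = a := by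
  cases a with
  | y x b =>
    by_cases h : α x = b
    · simp [prt, prt', h]
    · simp only [prt, h, if_false, prt', JM.y.injEq, true_and]
      cases hα : α x <;> cases b <;> simp_all
  | f x =>
    cases hα : α x <;> simp [prt, prt', hα]
  | e j => simp [prt, prt']
  | c j k =>
    by_cases h : k = κ j <;> simp [prt, prt', h]

theorem prt_prt' (α : ℕ → Bool) (κ : ℕ → ℕ) (w : JW) : prt α κ (prt' α κ w) = w := by
  cases w with
  | g x =>
    cases hα : α x <;> simp [prt, prt', hα]
  | v x s =>
    by_cases h : α x = s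
    · simp [prt, prt', h]
    · simp only [prt', h, if_false, prt, JW.v.injEq, true_and]
      cases hα : α x <;> cases s <;> simp_all
  | q j k =>
    by_cases h : k = κ j <;> simp [prt, prt', h]
  | p j => simp [prt, prt']

/-- The matching given by a satisfying assignment. -/
def μ1 (φ : CNF ℕ) (α : ℕ → Bool) (κ : ℕ → ℕ) : Man → Woman → Prop
  | .m0, .w0 => True
  | .a a, .w w => a ∈ jmen φ ∧ w = prt α κ a
  | .d w, .t a => a ∈ jmen φ ∧ w = prt α κ a
  | _, _ => False

theorem prt_mem {α : ℕ → Bool} {κ : ℕ → ℕ} (hκ : ∀ j < φ.length, κ j < len φ j) {a : JM}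
    (ha : a ∈ jmen φ) : prt α κ a ∈ jwomen φ := by
  cases a with
  | y x b =>
    simp only [mem_jmen_y] at ha
    by_cases h : α x = b <;> simp [prt, h, ha]
  | f x => simpa [prt] using ha
  | e j =>
    simp only [mem_jmen_e] at ha
    simp [prt, ha, hκ j ha]
  | c j k =>
    simp only [mem_jmen_c] at ha
    by_cases hk : k = κ j <;> simp [prt, hk, ha]

theorem prt'_mem {α : ℕ → Bool} {κ : ℕ → ℕ} (hκ : ∀ j < φ.length, κ j < len φ j) {w : JW}
    (hw : w ∈ jwomen φ) : prt' α κ w ∈ jmen φ := by
  cases w with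
  | g x => simpa [prt'] using hw
  | v x s =>
    simp only [mem_jwomen_v] at hw
    by_cases h : α x = s <;> simp [prt', h, hw]
  | q j k =>
    simp only [mem_jwomen_q] at hw
    by_cases h : k = κ j <;> simp [prt', h, hw]
  | p j =>
    simp only [mem_jwomen_p] at hw
    simp [prt', hw, hκ j hw]

theorem prt_inj {α : ℕ → Bool} {κ : ℕ → ℕ} {a a' : JM} (h : prt α κ a = prt α κ a') : a = a' := by
  rw [← prt'_prt α κ a, h, prt'_prt]

/-- Every woman of the inner instance is the partner of a man. -/
theorem prt_surj {α : ℕ → Bool} {κ : ℕ → ℕ} (hκ : ∀ j < φ.length, κ j < len φ j) {w : JW}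
    (hw : w ∈ jwomen φ) : ∃ a ∈ jmen φ, prt α κ a = w :=
  ⟨prt' α κ w, prt'_mem hκ hw, prt_prt' α κ w⟩

/-- The partner is acceptable, in both directions. -/
theorem prt_pm {α : ℕ → Bool} {κ : ℕ → ℕ} (hκ : ∀ j < φ.length, κ j < len φ j) {a : JM}
    (ha : a ∈ jmen φ) : Woman.w (prt α κ a) ∈ (pj φ a).flatten := by
  cases a with
  | y x b =>
    by_cases h : α x = b <;> simp [pj, prt, h]
  | f x =>
    cases hα : α x <;> simp [pj, prt, hα]
  | e j =>
    simp only [mem_jmen_e] at ha
    exact mem_pj_e.2 ⟨κ j, hκ j ha, rfl⟩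
  | c j k =>
    simp only [mem_jmen_c] at ha
    by_cases hk : k = κ j
    · exact mem_pj_c.2 (Or.inr (Or.inr (by simp [prt, hk])))
    · exact mem_pj_c.2 (Or.inl ⟨k, ha.2, by simp [prt, hk]⟩)

theorem prt_pk {α : ℕ → Bool} {κ : ℕ → ℕ} {a : JM}
    (ha : a ∈ jmen φ) : Man.a a ∈ (pk φ (prt α κ a)).flatten := by
  cases a with
  | y x b =>
    by_cases h : α x = b
    · simp [pk, prt, h]
    · cases b <;> simp [pk, prt, h]
  | f x => simp [pk, prt]
  | e j => simp [pk, prt]
  | c j k =>
    simp only [mem_jmen_c] at ha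
    by_cases hk : k = κ j
    · subst hk
      simp [pk, prt, ha]
    · simp [pk, prt, hk, ha]

theorem d_notMem_pk (w w' : JW) : Man.d w' ∉ (pk φ w).flatten := by
  cases w <;> simp [pk]

theorem μ1_stable {α : ℕ → Bool} {κ : ℕ → ℕ} (hκ : ∀ j < φ.length, κ j < len φ j)
    (hα : ∀ j < φ.length, α (lit φ j (κ j)).1 = (lit φ j (κ j)).2) :
    (NS φ).Stable (μ1 φ α κ) := by
  refine ⟨⟨?_, ?_, ?_⟩, ?_⟩
  · intro m w h
    cases m <;> cases w <;> simp only [μ1] at h
    · refine ⟨by simp, by simp, ?_, ?_⟩
      · simp [pm]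
      · simp [pw]
    · obtain ⟨h, rfl⟩ := h
      refine ⟨by simpa using h, by simpa using prt_mem hκ h,
        mem_pm_a.2 (Or.inr (Or.inl (prt_pm hκ h))), ?_⟩
      simp only [pw, List.flatten_append, List.mem_append]
      exact Or.inl (prt_pk h)
    · obtain ⟨h, rfl⟩ := h
      exact acc_d_t (prt_mem hκ h) h
  · intro m w w' h h'
    cases m <;> cases w <;> cases w' <;> simp only [μ1] at h h'
    · rfl
    · rw [h.2, h'.2]
    · rw [prt_inj (h.2.symm.trans h'.2)]
  · intro m m' w h h'
    cases m <;> cases m' <;> cases w <;> simp only [μ1] at h h'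
    · rfl
    · rw [prt_inj (h.2.symm.trans h'.2)]
    · rw [h.2, h'.2]
  · intro m w hacc hm hw
    obtain ⟨h1, h2, h3, h4⟩ := hacc
    -- a woman `t a'` is matched to a man she likes best
    have ht : ∀ a', w = .t a' → ∀ m', m = m' → False := by
      rintro a' rfl m' rfl
      have ha' : a' ∈ jmen φ := by simpa using h2
      have h6 := hw (.d (prt α κ a')) ⟨ha', rfl⟩
      change rk _ _ < rk _ _ at h6
      rw [rk_t_d (prt_mem hκ ha')] at h6
      omega
    cases m with
    | m0 =>
      have h5 : w = .w0 := by simpa [pm] using h3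
      subst h5
      have h6 := hm .w0 trivial
      change rk _ _ < rk _ _ at h6
      omega
    | s =>
      rcases mem_pm_s.1 h3 with rfl | ⟨a, ha, rfl⟩
      · have h6 := hw .m0 trivial
        change rk _ _ < rk _ _ at h6
        rw [rk_w0_m0, rk_w0_s] at h6
        omega
      · exact ht a rfl _ rfl
    | d w' =>
      have hw' : w' ∈ jwomen φ := by simpa using h1
      obtain ⟨a, ha, rfl⟩ := prt_surj (α := α) hκ hw'
      rcases mem_pm_d.1 h3 with rfl | ⟨a', ha', rfl⟩
      · have h6 := hw (.a a) ⟨ha, rfl⟩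
        change rk _ _ < rk _ _ at h6
        have h7 := rk_append_mem (l' := [[Man.d (prt α κ a)]]) (prt_pk (α := α) (κ := κ) ha)
        have h8 := rk_append_notMem (l' := [[Man.d (prt α κ a)]])
          (d_notMem_pk (φ := φ) (prt α κ a) (prt α κ a))
        simp only [pw] at h6
        omega
      · exact ht a' rfl _ rfl
    | a a =>
      have ha : a ∈ jmen φ := by simpa using h1
      have hprt := prt_pm (α := α) hκ ha
      have h6 := hm (.w (prt α κ a)) ⟨ha, rfl⟩
      change rk _ _ < rk _ _ at h6
      rw [(rk_pm_w hprt).1] at h6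
      have h6' := (rk_pm_w hprt).2
      cases w with
      | w0 =>
        rw [rk_pm_w0] at h6
        omega
      | t a' => exact ht a' rfl _ rfl
      | w w =>
        have h3' : Woman.w w ∈ (pj φ a).flatten := by
          rw [mem_pm_a] at h3
          simpa using h3
        rw [(rk_pm_w h3').1] at h6
        cases a with
        | y x b =>
          by_cases hb : α x = b
          · -- at `v x b`
            rcases mem_pj_y.1 h3' with h5 | h5
            · simp only [Woman.w.injEq] at h5
              subst h5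
              have h7 := hw (.a (.y x (!b))) ⟨by simpa using ha, by simp [prt, hb]⟩
              change rk _ _ < rk _ _ at h7
              have e : ∀ b, rk (pw φ (.w (.g x))) (.a (.y x b)) = 0 := by
                intro b
                cases b <;> simp [pw, pk, rk_cons]
              rw [e, e] at h7
              omega
            · simp only [Woman.w.injEq] at h5
              subst h5
              simp only [prt, hb, if_true] at h6
              omega
          · simp only [prt, hb, if_false] at h6
            rw [show rk (pj φ (.y x b)) (.w (.g x)) = 0 by simp [pj, rk_cons]] at h6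
            omega
        | f x =>
          cases hb : α x with
          | false =>
            simp only [prt, hb, Bool.not_false] at h6
            rw [show rk (pj φ (.f x)) (.w (.v x true)) = 0 by simp [pj, rk_cons]] at h6
            omega
          | true =>
            rcases mem_pj_f.1 h3' with h5 | h5
            · simp only [Woman.w.injEq] at h5
              subst h5
              have h7 := hw (.a (.y x true)) ⟨by simpa using ha, by simp [prt, hb]⟩
              change rk _ _ < rk _ _ at h7
              rw [show rk (pw φ (.w (.v x true))) (.a (.y x true)) = 0 by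
                simp [pw, pk, rk_cons]] at h7
              omega
            · simp only [Woman.w.injEq] at h5
              subst h5
              simp only [prt, hb, Bool.not_true] at h6
              omega
        | e j =>
          simp only [mem_jmen_e] at ha
          obtain ⟨k, hk, h5⟩ := mem_pj_e.1 h3'
          simp only [Woman.w.injEq] at h5
          subst h5
          -- the woman `q j k` is matched to a man she likes equally
          have e4 : ∀ a, a = JM.e j ∨ (∃ k < len φ j, a = JM.c j k) →
              rk (pw φ (.w (.q j k))) (.a a) = 0 := by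
            rintro a (rfl | ⟨k, hk, rfl⟩)
            · simp [pw, pk, rk_cons]
            · simp [pw, pk, rk_cons, hk]
          have h8 : ∃ a, (a = JM.e j ∨ (∃ k < len φ j, a = JM.c j k)) ∧ a ∈ jmen φ ∧
              JW.q j k = prt α κ a := by
            by_cases hk2 : k = κ j
            · exact ⟨.e j, Or.inl rfl, by simpa using ha, by simp [prt, hk2]⟩
            · exact ⟨.c j k, Or.inr ⟨k, hk, rfl⟩, by simpa using ⟨ha, hk⟩, by simp [prt, hk2]⟩
          obtain ⟨a', ha'1, ha'2, ha'3⟩ := h8
          have h9 := hw (.a a') ⟨ha'2, ha'3⟩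
          change rk _ _ < rk _ _ at h9
          rw [e4 a' ha'1] at h9
          omega
        | c j k =>
          simp only [mem_jmen_c] at ha
          rcases mem_pj_c.1 h3' with ⟨k', hk', h5⟩ | h5 | h5
          · -- the woman `q j k'` is matched to a man she likes equally
            simp only [Woman.w.injEq] at h5
            subst h5
            have e4 : ∀ a, a = JM.e j ∨ (∃ k < len φ j, a = JM.c j k) →
                rk (pw φ (.w (.q j k'))) (.a a) = 0 := by
              rintro a (rfl | ⟨k, hk, rfl⟩)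
              · simp [pw, pk, rk_cons]
              · simp [pw, pk, rk_cons, hk]
            have h8 : ∃ a, (a = JM.e j ∨ (∃ k < len φ j, a = JM.c j k)) ∧ a ∈ jmen φ ∧
                JW.q j k' = prt α κ a := by
              by_cases hk2 : k' = κ j
              · exact ⟨.e j, Or.inl rfl, by simpa using ha.1, by simp [prt, hk2]⟩
              · exact ⟨.c j k', Or.inr ⟨k', hk', rfl⟩, by simpa using ⟨ha.1, hk'⟩,
                  by simp [prt, hk2]⟩
            obtain ⟨a', ha'1, ha'2, ha'3⟩ := h8
            have h9 := hw (.a a') ⟨ha'2, ha'3⟩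
            change rk _ _ < rk _ _ at h9
            rw [e4 a' ha'1] at h9
            omega
          · simp only [Woman.w.injEq] at h5
            subst h5
            by_cases hk : k = κ j
            · -- the literal is true, so its woman is matched to her first choice
              subst hk
              have hv := lit_mem ha.1 ha.2
              have h9 := hw (.a (.y (lit φ j (κ j)).1 (lit φ j (κ j)).2))
                ⟨by simpa using hv, by simp [prt, hα j ha.1]⟩
              change rk _ _ < rk _ _ at h9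
              rw [show rk (pw φ (.w (.v (lit φ j (κ j)).1 (lit φ j (κ j)).2)))
                (.a (.y (lit φ j (κ j)).1 (lit φ j (κ j)).2)) = 0 by
                  simp [pw, pk, rk_cons]] at h9
              omega
            · simp only [prt, hk, if_false] at h6
              have := rk_c_q (k := k) ha.2
              rw [rk_c_v] at h6
              omega
          · simp only [Woman.w.injEq] at h5
            subst h5
            by_cases hk : k = κ j
            · simp only [prt, hk, if_true] at h6
              omega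
            · simp only [prt, hk, if_false] at h6
              have := rk_c_q (k := k) ha.2
              rw [rk_c_p] at h6
              omega

theorem exists_stable_of_sat (h : φ.Sat) : ∃ μ, (NS φ).Stable μ ∧ μ .m0 .w0 := by
  classical
  obtain ⟨α, hα⟩ := h
  have hex : ∀ j, ∃ k, j < φ.length → k < len φ j ∧ α (lit φ j k).1 = (lit φ j k).2 := by
    intro j
    by_cases hj : j < φ.length
    · have hcl : cl φ j = φ[j] := by simp [cl, List.getElem?_eq_getElem hj]
      obtain ⟨l, hl, hl'⟩ := hα φ[j] (List.getElem_mem hj)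
      rw [← hcl] at hl
      obtain ⟨k, hk, rfl⟩ := List.getElem_of_mem hl
      refine ⟨k, fun _ => ⟨hk, ?_⟩⟩
      simpa only [lit, List.getElem?_eq_getElem hk, Option.getD_some] using hl'
    · exact ⟨0, fun h => absurd h hj⟩
  choose κ hκ using hex
  exact ⟨μ1 φ α κ, μ1_stable (fun j hj => (hκ j hj).1) (fun j hj => (hκ j hj).2), trivial⟩

/-- The main property of the reduction, for named agents. -/
theorem sat_iff_no_opt : φ.Sat ↔ ¬ ∃ μ, (NS φ).Opt μ := by
  constructor
  · intro h
    rintro ⟨μ, hμ, hopt⟩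
    obtain ⟨μ', hμ', h0⟩ := exists_stable_of_sat h
    -- `m0` must be matched to `w0`
    have h1 : μ .m0 .w0 := by
      by_contra hcon
      refine hopt μ' hμ' .m0 .w0 h0 ?_
      intro w hw
      exfalso
      have h2 := (hμ.1.1 _ _ hw).2.2.1
      have h3 : w = .w0 := by simpa [pm] using h2
      subst h3
      exact hcon hw
    -- and so must `s`
    have h2 : μ .s .w0 := by
      by_contra hcon
      refine hopt (μ0 φ) μ0_stable .s .w0 trivial ?_
      intro w hw
      show rk _ _ < rk _ _
      have h3 : w ≠ .w0 := fun h => hcon (h ▸ hw)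
      simp [pm, rk_cons, h3]
    exact absurd (hμ.1.2.2 _ _ _ h1 h2) (by simp)
  · intro h
    by_contra hsat
    apply h
    refine ⟨μ0 φ, μ0_stable, ?_⟩
    intro μ' hμ' m w' hmw hall
    cases m with
    | m0 =>
      have h2 := (hμ'.1.1 _ _ hmw).2.2.1
      have h3 : w' = .w0 := by simpa [pm] using h2
      subst h3
      exact hsat (sat_of_stable hμ' hmw)
    | s =>
      have h6 := hall .w0 trivial
      change rk _ _ < rk _ _ at h6
      rw [show rk (pm φ .s) .w0 = 0 by simp [pm, rk_cons]] at h6
      omega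
    | a a =>
      have h1 := (hμ'.1.1 _ _ hmw).1
      have h6 := hall (.t a) ⟨rfl, by simpa using h1⟩
      change rk _ _ < rk _ _ at h6
      rw [show rk (pm φ (.a a)) (.t a) = 0 by simp [pm, rk_cons]] at h6
      omega
    | d w =>
      have h1 := (hμ'.1.1 _ _ hmw).1
      have h6 := hall (.w w) ⟨rfl, by simpa using h1⟩
      change rk _ _ < rk _ _ at h6
      rw [show rk (pm φ (.d w)) (.w w) = 0 by simp [pm, rk_cons]] at h6
      omega

end Pool.Agent.W_MP_7af251_lc
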